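import Pool.Agent.Lib.H42M.A05

/-!
# A06: lower limit, upper limit, no limit
-/

set_option autoImplicit false

open Filter Topology

namespace Pool.Agent.Lib.H42M

open Pool.Agent.Lib.H28P

theorem a06_pow_three : Tendsto (fun k : ℕ => ((3 : ℝ) ^ k)⁻¹) atTop (𝓝 0) :=
  tendsto_inv_atTop_zero.comp (tendsto_pow_atTop_atTop_of_one_lt (by norm_num))

theorem a06_lower_tendsto : Tendsto (fun n : ℕ =>
    8 / 5 ^ alpha * (1 - 2 * (n : ℝ)⁻¹) ^ alpha - ((n : ℝ) ^ alpha)⁻¹) atTop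
    (𝓝 (8 / 5 ^ alpha)) := by
  have t0 : Tendsto (fun n : ℕ => (n : ℝ)⁻¹) atTop (𝓝 0) := tendsto_inv_atTop_nhds_zero_nat
  have t1 : Tendsto (fun n : ℕ => (1 - 2 * (n : ℝ)⁻¹)) atTop (𝓝 (1 - 2 * 0)) :=
    tendsto_const_nhds.sub (tendsto_const_nhds.mul t0)
  have t2 : Tendsto (fun n : ℕ => (1 - 2 * (n : ℝ)⁻¹) ^ alpha) atTop (𝓝 ((1 - 2 * 0) ^ alpha)) :=
    t1.rpow_const (Or.inl (by norm_num))
  have t3 : Tendsto (fun n : ℕ => ((n : ℝ) ^ alpha)⁻¹) atTop (𝓝 0) :=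
    tendsto_inv_atTop_zero.comp ((tendsto_rpow_atTop alpha_pos).comp tendsto_natCast_atTop_atTop)
  have t4 := (tendsto_const_nhds (x := (8 : ℝ) / 5 ^ alpha)).mul t2 |>.sub t3
  have e : (8 : ℝ) / 5 ^ alpha * (1 - 2 * 0) ^ alpha - 0 = 8 / 5 ^ alpha := by simp
  rw [e] at t4
  exact t4

section

variable {g : ℕ → ℕ} (hex : ∀ n, 4 ≤ n → ∀ l, g n + 1 ≤ l ↔ n ≤ nn l + 2)

include hex

theorem a06_lower (n : ℕ) (hn : 4 ≤ n) :
    8 / 5 ^ alpha * ((n : ℝ) - 2) ^ alpha ≤ (g n : ℝ) + 1 := by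
  have h := a05_lower hex n hn
  have h4 : (4 : ℝ) ≤ n := by exact_mod_cast hn
  unfold pw at h
  rw [Real.div_rpow (by linarith) (by norm_num)] at h
  calc 8 / 5 ^ alpha * ((n : ℝ) - 2) ^ alpha = 8 * (((n : ℝ) - 2) ^ alpha / 5 ^ alpha) := by ring
    _ ≤ _ := h

theorem a06_ratio_ge (n : ℕ) (hn : 4 ≤ n) :
    8 / 5 ^ alpha * (1 - 2 * (n : ℝ)⁻¹) ^ alpha - ((n : ℝ) ^ alpha)⁻¹ ≤
      (g n : ℝ) / (n : ℝ) ^ alpha := by
  have h4 : (4 : ℝ) ≤ n := by exact_mod_cast hn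
  have hn0 : (0 : ℝ) < n := by linarith
  have h := a05_lower hex n hn
  have hp : (0 : ℝ) < (n : ℝ) ^ alpha := by positivity
  have e1 : (n : ℝ) - 2 = n * (1 - 2 * (n : ℝ)⁻¹) := by field_simp
  have hq : 0 ≤ 1 - 2 * (n : ℝ)⁻¹ := by
    have : (n : ℝ)⁻¹ ≤ 4⁻¹ := by gcongr
    linarith
  have e2 : pw ((n : ℝ) - 2) = 8 / 5 ^ alpha * (1 - 2 * (n : ℝ)⁻¹) ^ alpha * (n : ℝ) ^ alpha := by
    unfold pw
    rw [Real.div_rpow (by linarith) (by norm_num), e1, Real.mul_rpow hn0.le hq]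
    ring
  rw [e2] at h
  rw [le_div_iff₀ hp, sub_mul, inv_mul_cancel₀ hp.ne']
  linarith

theorem a06_eventually_ge (ε : ℝ) (hε : 0 < ε) :
    ∀ᶠ n : ℕ in atTop, 8 / 5 ^ alpha - ε ≤ (g n : ℝ) / (n : ℝ) ^ alpha := by
  have h := a06_lower_tendsto.eventually
    (lt_mem_nhds (show 8 / 5 ^ alpha - ε < 8 / 5 ^ alpha by linarith))
  filter_upwards [h, eventually_ge_atTop 4] with n hn h4
  exact hn.le.trans (a06_ratio_ge hex n h4)

theorem a06_frequently_le : ∃ᶠ n : ℕ in atTop, (g n : ℝ) / (n : ℝ) ^ alpha ≤ 8 / 5 ^ alpha := by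
  have ht : Tendsto (fun k : ℕ => 5 * 3 ^ k + 2) atTop atTop := by
    apply tendsto_atTop_mono (f := fun k : ℕ => k)
    · intro k
      have : k < 3 ^ k := Nat.lt_pow_self (by norm_num)
      omega
    · exact tendsto_id
  refine ht.frequently (Eventually.of_forall fun k => ?_).frequently
  have h8 : nn 8 = 5 := nn_small (by norm_num)
  have p3 : 1 ≤ 3 ^ k := Nat.one_le_pow _ _ (by norm_num)
  have h1 := (hex (5 * 3 ^ k + 2) (by omega) (2 ^ k * 8)).2 (by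
    rw [a01_pow k 8 (by norm_num), h8]; omega)
  have h2 : (g (5 * 3 ^ k + 2) : ℝ) ≤ 2 ^ k * 8 := by
    have : g (5 * 3 ^ k + 2) ≤ 2 ^ k * 8 := by omega
    exact_mod_cast this
  have h3 : ((5 : ℝ) * 3 ^ k) ^ alpha = 5 ^ alpha * 2 ^ k := by
    rw [Real.mul_rpow (by norm_num) (by positivity), rpow_three_pow']
  have h4 : (5 : ℝ) ^ alpha * 2 ^ k ≤ ((5 * 3 ^ k + 2 : ℕ) : ℝ) ^ alpha := by
    rw [← h3]
    apply Real.rpow_le_rpow (by positivity) _ alpha_pos.le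
    push_cast; linarith
  have p5 : (0 : ℝ) < 5 ^ alpha := by positivity
  have p2 : (0 : ℝ) < 2 ^ k := by positivity
  rw [div_le_div_iff₀ (by positivity) p5]
  calc (g (5 * 3 ^ k + 2) : ℝ) * 5 ^ alpha ≤ (2 ^ k * 8) * 5 ^ alpha := by gcongr
    _ = 8 * (5 ^ alpha * 2 ^ k) := by ring
    _ ≤ 8 * ((5 * 3 ^ k + 2 : ℕ) : ℝ) ^ alpha := by gcongr

theorem a06_frequently_ge (l : ℕ) (hl : 6 ≤ l) (ε : ℝ) (hε : 0 < ε) :
    ∃ᶠ n : ℕ in atTop, Rr l - ε ≤ (g n : ℝ) / (n : ℝ) ^ alpha := by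
  have hp : 1 ≤ nn l := a01_pos (l := l) (by omega)
  have hpR : (0 : ℝ) < nn l := by exact_mod_cast hp
  have ht : Tendsto (fun k : ℕ => 3 ^ k * nn l + 3) atTop atTop := by
    apply tendsto_atTop_mono (f := fun k : ℕ => k)
    · intro k
      have : k < 3 ^ k := Nat.lt_pow_self (by norm_num)
      nlinarith
    · exact tendsto_id
  -- the ratio along the subsequence is at least a function with limit `Rr l`
  have hle : ∀ k : ℕ, (l : ℝ) / ((nn l : ℝ) ^ alpha * (1 + 3 / nn l * ((3 : ℝ) ^ k)⁻¹) ^ alpha) ≤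
      (g (3 ^ k * nn l + 3) : ℝ) / ((3 ^ k * nn l + 3 : ℕ) : ℝ) ^ alpha := by
    intro k
    have h1 : (2 : ℝ) ^ k * l ≤ g (3 ^ k * nn l + 3) := by
      exact_mod_cast a05_upper_seq hex l k hl
    have p3 : (0 : ℝ) < 3 ^ k := by positivity
    have p2 : (0 : ℝ) < 2 ^ k := by positivity
    have e : ((3 ^ k * nn l + 3 : ℕ) : ℝ) = 3 ^ k * (nn l * (1 + 3 / nn l * ((3 : ℝ) ^ k)⁻¹)) := by
      push_cast; field_simp
    have q : (0 : ℝ) < (1 + 3 / nn l * ((3 : ℝ) ^ k)⁻¹) ^ alpha := by positivity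
    have q' : (0 : ℝ) < (nn l : ℝ) ^ alpha := by positivity
    rw [e, Real.mul_rpow p3.le (by positivity), rpow_three_pow', Real.mul_rpow hpR.le (by positivity)]
    rw [div_le_div_iff₀ (by positivity) (by positivity)]
    calc (l : ℝ) * (2 ^ k * ((nn l : ℝ) ^ alpha * (1 + 3 / nn l * ((3 : ℝ) ^ k)⁻¹) ^ alpha))
        = (2 ^ k * l) * ((nn l : ℝ) ^ alpha * (1 + 3 / nn l * ((3 : ℝ) ^ k)⁻¹) ^ alpha) := by ring
      _ ≤ (g (3 ^ k * nn l + 3) : ℝ) *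
          ((nn l : ℝ) ^ alpha * (1 + 3 / nn l * ((3 : ℝ) ^ k)⁻¹) ^ alpha) := by gcongr
  have hlim : Tendsto (fun k : ℕ => (l : ℝ) / ((nn l : ℝ) ^ alpha *
      (1 + 3 / nn l * ((3 : ℝ) ^ k)⁻¹) ^ alpha)) atTop (𝓝 (Rr l)) := by
    have t2 : Tendsto (fun k : ℕ => (1 + 3 / (nn l : ℝ) * ((3 : ℝ) ^ k)⁻¹)) atTop
        (𝓝 (1 + 3 / (nn l : ℝ) * 0)) :=
      tendsto_const_nhds.add (tendsto_const_nhds.mul a06_pow_three)
    have t3 : Tendsto (fun k : ℕ => (1 + 3 / (nn l : ℝ) * ((3 : ℝ) ^ k)⁻¹) ^ alpha) atTop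
        (𝓝 ((1 + 3 / (nn l : ℝ) * 0) ^ alpha)) := t2.rpow_const (Or.inl (by norm_num))
    have t4 := (tendsto_const_nhds (x := (l : ℝ))).div
      ((tendsto_const_nhds (x := (nn l : ℝ) ^ alpha)).mul t3)
      (by rw [mul_zero, add_zero, Real.one_rpow, mul_one]; positivity)
    have e : (l : ℝ) / ((nn l : ℝ) ^ alpha * (1 + 3 / (nn l : ℝ) * 0) ^ alpha) = Rr l := by
      unfold Rr; simp
    rw [← e]
    exact t4
  have hev := hlim.eventually (lt_mem_nhds (show Rr l - ε < Rr l by linarith))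
  refine ht.frequently (hev.mono fun k hk => ?_).frequently
  exact hk.le.trans (hle k)

/-- lower limit -/
theorem a06_liminf : liminf (fun n : ℕ => (g n : ℝ) / (n : ℝ) ^ alpha) atTop = 8 / 5 ^ alpha := by
  have hbd : IsBoundedUnder (· ≥ ·) atTop (fun n : ℕ => (g n : ℝ) / (n : ℝ) ^ alpha) := ⟨0, by
    simp only [eventually_map]
    exact Eventually.of_forall fun n => by positivity⟩
  have hfr := a06_frequently_le hex
  have hco : IsCoboundedUnder (· ≥ ·) atTop (fun n : ℕ => (g n : ℝ) / (n : ℝ) ^ alpha) :=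
    IsCoboundedUnder.of_frequently_le hfr
  apply le_antisymm
  · exact liminf_le_of_frequently_le hfr hbd
  · refine le_of_forall_pos_le_add fun ε hε => ?_
    have := le_liminf_of_le hco (a06_eventually_ge hex ε hε)
    linarith

/-- upper limit -/
theorem a06_limsup : limsup (fun n : ℕ => (g n : ℝ) / (n : ℝ) ^ alpha) atTop = Lam := by
  have hev : ∀ᶠ n : ℕ in atTop, (g n : ℝ) / (n : ℝ) ^ alpha ≤ Lam := by
    filter_upwards [eventually_ge_atTop 8] with n hn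
    exact a05_upper hex n hn
  have hbd : IsBoundedUnder (· ≤ ·) atTop (fun n : ℕ => (g n : ℝ) / (n : ℝ) ^ alpha) :=
    ⟨Lam, by simpa only [eventually_map] using hev⟩
  have hco : IsCoboundedUnder (· ≤ ·) atTop (fun n : ℕ => (g n : ℝ) / (n : ℝ) ^ alpha) :=
    IsCoboundedUnder.of_frequently_ge (a := 0)
      (Eventually.of_forall fun n => by positivity).frequently
  apply le_antisymm
  · exact limsup_le_of_le hco hev
  · apply csSup_le
    · exact ⟨_, 6, Set.mem_Ici.2 le_rfl, rfl⟩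
    · rintro x ⟨l, hl, rfl⟩
      refine le_of_forall_pos_le_add fun ε hε => ?_
      have := le_limsup_of_frequently_le (a06_frequently_ge hex l hl ε hε) hbd
      have e : Rr l = (l : ℝ) / (nn l : ℝ) ^ alpha := rfl
      rw [e] at this
      linarith

theorem a06_no_limit :
    ¬ ∃ L : ℝ, Tendsto (fun n : ℕ => (g n : ℝ) / (n : ℝ) ^ alpha) atTop (𝓝 L) := by
  rintro ⟨L, hL⟩
  have h1 := hL.liminf_eq
  have h2 := hL.limsup_eq
  rw [a06_liminf hex] at h1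
  rw [a06_limsup hex] at h2
  have h3 := lt_Lam
  have h4 : (8 : ℝ) / 5 ^ alpha ≤ 3 := by
    have h5 : (8 : ℝ) / 3 ≤ 5 ^ alpha := by
      have h6 : (5 : ℝ) ^ ((41 : ℝ) / 65) ≤ 5 ^ alpha :=
        Real.rpow_le_rpow_of_exponent_le (by norm_num) le_alpha
      have e1 : (5 : ℝ) ^ ((41 : ℝ) / 65) = (5 ^ 41) ^ ((1 : ℝ) / 65) := by
        rw [← Real.rpow_natCast, ← Real.rpow_mul (by norm_num)]
        norm_num
      have e2 : (((8 : ℝ) / 3) ^ 65) ^ ((1 : ℝ) / 65) = 8 / 3 := by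
        rw [← Real.rpow_natCast, ← Real.rpow_mul (by norm_num)]
        norm_num
      have h7 : (((8 : ℝ) / 3) ^ 65) ^ ((1 : ℝ) / 65) ≤ (5 ^ 41) ^ ((1 : ℝ) / 65) :=
        Real.rpow_le_rpow (by positivity) (by norm_num) (by norm_num)
      rw [e2, ← e1] at h7
      exact h7.trans h6
    rw [div_le_iff₀ (by positivity)]
    linarith
  norm_num at h3
  linarith

end

end Pool.Agent.Lib.H42M
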