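import Pool.Agent.Lib.H42M.C03
import Pool.Agent.Lib.H28P.G09

/-!
# C04: every stacked polytope has a long path
-/

set_option autoImplicit false

namespace Pool.Agent.Lib.H42M

open Pool.Agent.Lib.H28P

variable {V : Type*} [DecidableEq V] {G : SimpleGraph V} {T : Finset V} {x y z c : V}
  {A B C D : Finset V} {wA wB wC wD mA mB mC mD : ℕ}

theorem Tet.hasPath (t : Tet G T x y z c A B C D wA wB wC wD mA mB mC mD) {w Y : ℕ}
    (hY : Prof G x y z D w Y) : HasPath G T (Y + wA + wC + wB) := by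
  have hA := t.hA.notMem
  have hB := t.hB.notMem
  have hC := t.hC.notMem
  have hD := t.hD.notMem
  have aA := t.hA.adj
  have aB := t.hB.adj
  have aD := t.hD.adj
  refine hasPath_A (S₁ := A) (S₂ := C) (S₃ := B) (S₄ := D) (a := z) (b := x) (c := y) (d := c)
    (t := x) hY.2.1 t.hB.swap12.thr t.hA.swap23.thr t.hC.rot'.thr t.dAC t.dAB t.dAD t.dBC.symm
    t.dCD t.dBD aD.2.2.ne' aD.2.1.ne' aA.2.1.ne aD.1.ne aB.2.2.ne aA.2.2.ne ?_ ?_
  · rintro v (rfl | rfl | rfl | rfl)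
    · refine ⟨hA.2.1, t.nz, hB.2.1, hD.2.2, ?_⟩
      rw [t.hT]; simp
    · refine ⟨t.nx, hC.1, hB.1, hD.1, ?_⟩
      rw [t.hT]; simp
    · refine ⟨hA.1, hC.2.1, t.ny, hD.2.1, ?_⟩
      rw [t.hT]; simp
    · refine ⟨hA.2.2, hC.2.2, hB.2.2, t.nc, ?_⟩
      rw [t.hT]; simp
  · rw [t.hT]
    refine ⟨?_, ?_, ?_, ?_⟩ <;> intro v hv <;> simp [hv]

theorem Tet.card (t : Tet G T x y z c A B C D wA wB wC wD mA mB mC mD) :
    T.card = 4 + (A.card + B.card + C.card + D.card) := by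
  have hA := t.hA.notMem
  have hB := t.hB.notMem
  have hC := t.hC.notMem
  have hD := t.hD.notMem
  have aA := t.hA.adj
  have aB := t.hB.adj
  have aD := t.hD.adj
  have d1 : Disjoint (A ∪ B) C := Finset.disjoint_union_left.2 ⟨t.dAC, t.dBC⟩
  have d2 : Disjoint (A ∪ B ∪ C) D :=
    Finset.disjoint_union_left.2 ⟨Finset.disjoint_union_left.2 ⟨t.dAD, t.dBD⟩, t.dCD⟩
  have d3 : Disjoint ({x, y, z, c} : Finset V) (A ∪ B ∪ C ∪ D) := by
    rw [Finset.disjoint_left]
    intro v hv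
    simp only [Finset.mem_insert, Finset.mem_singleton] at hv
    simp only [Finset.mem_union, not_or]
    rcases hv with rfl | rfl | rfl | rfl
    · exact ⟨⟨⟨t.nx, hB.1⟩, hC.1⟩, hD.1⟩
    · exact ⟨⟨⟨hA.1, t.ny⟩, hC.2.1⟩, hD.2.1⟩
    · exact ⟨⟨⟨hA.2.1, hB.2.1⟩, t.nz⟩, hD.2.2⟩
    · exact ⟨⟨⟨hA.2.2, hB.2.2⟩, hC.2.2⟩, t.nc⟩
  have e4 : ({x, y, z, c} : Finset V).card = 4 := by
    rw [Finset.card_insert_of_notMem, Finset.card_insert_of_notMem, Finset.card_insert_of_notMem,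
      Finset.card_singleton]
    · simp [aA.2.1.ne]
    · simp [aD.2.1.ne, aA.2.2.ne]
    · simp [aD.1.ne, aD.2.2.ne, aB.2.2.ne]
  rw [t.hT, Finset.card_union_of_disjoint d3, Finset.card_union_of_disjoint d2,
    Finset.card_union_of_disjoint d1, Finset.card_union_of_disjoint t.dAB, e4]

theorem GW.eq_empty {S : Finset V} {w m : ℕ} (h : GW G x y z S w m) (hm : m = 0) : S = ∅ := by
  cases h with
  | leaf => rfl
  | node _ _ _ c S₁ S₂ S₃ w₁ w₂ w₃ m₁ m₂ m₃ h₁ h₂ h₃ hx hy hz h12 h13 h23 =>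
    have := h₁.one_le
    have := h₂.one_le
    have := h₃.one_le
    omega

theorem Good.bound (h : Good G T 1) : ∃ l, HasPath G T l ∧ T.card ≤ nn l + 2 := by
  obtain ⟨x, y, z, c, A, B, C, D, wA, wB, wC, wD, mA, mB, mC, mD, t, h1, h2, h3, h4, h5, h6⟩ :=
    exists_root h
  have hcard := t.card
  rcases Nat.eq_zero_or_pos mD with h0 | h0
  · have eA := t.hA.eq_empty (by omega)
    have eB := t.hB.eq_empty (by omega)
    have eC := t.hC.eq_empty (by omega)
    have eD := t.hD.eq_empty (by omega)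
    subst eA eB eC eD
    obtain ⟨Y, hY⟩ := t.hD.exists_prof
    have hY2 : Prof G x y z ∅ 1 2 := Prof.leaf t.hD.adj.1 t.hD.adj.2.1 t.hD.adj.2.2
    refine ⟨_, t.hasPath hY2, ?_⟩
    have k1 := t.hA.one_le
    have k2 := t.hB.one_le
    have k3 := t.hC.one_le
    have : nn 5 ≤ nn (2 + wA + wC + wB) := nn_mono (by omega)
    rw [nn_small (l := 5) (by omega)] at this
    simp at hcard
    omega
  · obtain ⟨Y, hY, hR⟩ := t.hD.flow h0
    refine ⟨_, t.hasPath hY, ?_⟩
    have rA := t.hA.rep h0 h1 h4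
    have rB := t.hB.rep h0 h2 h5
    have rC := t.hC.rep h0 h3 h6
    have r := (((hR.add rA).add rC).add rB).final h0
    omega

theorem Stacked.good {W : Finset ℕ} {E : Finset (Sym2 ℕ)} {F : Finset (Finset ℕ)}
    (h : Stacked W E F) : Good (graphOf E) W 1 := by
  obtain ⟨p, S, L, ⟨hQ, hdis, hpS, hinj⟩, hV, -⟩ := h.exists_quad
  obtain ⟨wA, mA, gA⟩ := GW.ofGad (hQ 0 1 2 3 (by decide) (by decide) (by decide) (by decide)
    (by decide) (by decide))
  obtain ⟨wB, mB, gB⟩ := GW.ofGad (hQ 1 0 2 3 (by decide) (by decide) (by decide) (by decide)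
    (by decide) (by decide))
  obtain ⟨wC, mC, gC⟩ := GW.ofGad (hQ 2 0 1 3 (by decide) (by decide) (by decide) (by decide)
    (by decide) (by decide))
  obtain ⟨wD, mD, gD⟩ := GW.ofGad (hQ 3 0 1 2 (by decide) (by decide) (by decide) (by decide)
    (by decide) (by decide))
  refine ⟨p 0, p 1, p 2, p 3, S 0, S 1, S 2, S 3, wA, wB, wC, wD, mA, mB, mC, mD,
    { hA := gA
      hB := gB
      hC := gC
      hD := gD
      dAB := hdis _ _ (by decide)
      dAC := hdis _ _ (by decide)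
      dAD := hdis _ _ (by decide)
      dBC := hdis _ _ (by decide)
      dBD := hdis _ _ (by decide)
      dCD := hdis _ _ (by decide)
      nx := hpS _ _
      ny := hpS _ _
      nz := hpS _ _
      nc := hpS _ _
      hT := ?_ }, gA.one_le, gB.one_le, gC.one_le, gD.one_le⟩
  rw [← hV]
  unfold quadV
  ext v
  simp only [Finset.mem_union, Finset.mem_image, Finset.mem_univ, true_and, Finset.mem_biUnion,
    Finset.mem_insert, Finset.mem_singleton]
  constructor
  · rintro (⟨i, rfl⟩ | ⟨i, hi⟩)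
    · fin_cases i <;> simp
    · fin_cases i
      · exact Or.inr (Or.inl (Or.inl (Or.inl hi)))
      · exact Or.inr (Or.inl (Or.inl (Or.inr hi)))
      · exact Or.inr (Or.inl (Or.inr hi))
      · exact Or.inr (Or.inr hi)
  · rintro ((h | h | h | h) | (((h | h) | h) | h))
    · exact Or.inl ⟨0, h.symm⟩
    · exact Or.inl ⟨1, h.symm⟩
    · exact Or.inl ⟨2, h.symm⟩
    · exact Or.inl ⟨3, h.symm⟩
    · exact Or.inr ⟨0, h⟩
    · exact Or.inr ⟨1, h⟩
    · exact Or.inr ⟨2, h⟩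
    · exact Or.inr ⟨3, h⟩

/-- The lower bound: every stacked polytope has a path `l` with `#V ≤ nn (#l + 1) + 2`. -/
theorem Stacked.long_path {W : Finset ℕ} {E : Finset (Sym2 ℕ)} {F : Finset (Finset ℕ)}
    (h : Stacked W E F) : ∃ l, EdgePath W E l ∧ W.card ≤ nn (l.length + 1) + 2 := by
  obtain ⟨k, ⟨l, h1, h2, h3, h4⟩, hk⟩ := (Stacked.good h).bound
  refine ⟨l, ⟨h1, h2, ?_⟩, ?_⟩
  · refine h3.imp ?_
    intro u v huv
    have := (SimpleGraph.fromEdgeSet_adj _).1 huv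
    exact this.1
  · have := nn_mono h4
    omega

end Pool.Agent.Lib.H42M
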