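import Pool.Agent.Lib.H42M.E02
import Pool.Agent.Lib.H42M.C04
import Pool.Agent.Lib.H42M.A06
import Pool.Agent.Lib.H28P.U05

/-!
# E03: the exact value of the function for stacked polytopes
-/

set_option autoImplicit false

open Filter Topology

namespace Pool.Agent.Lib.H42M

open Pool.Agent.Lib.H28P

theorem ub_pred {n p : ℕ} (hn : 4 ≤ n) (h : UB (n + 1) p) : UB n p := by
  obtain ⟨V, E, F, hS, hc, hp⟩ := h
  cases hS with
  | tetrahedron a b c d =>
    have := Finset.card_le_four (a := a) (b := b) (c := c) (d := d)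
    omega
  | stack V E F x y z v hS hf hv =>
    rw [Finset.card_insert_of_notMem hv] at hc
    refine ⟨V, E, F, hS, by omega, fun l hl => hp l ⟨hl.1, fun w hw => ?_, ?_⟩⟩
    · exact Finset.mem_insert_of_mem (hl.2.1 w hw)
    · exact hl.2.2.imp fun u w huw => Finset.mem_union_left _ huw

theorem ub_le {n m p : ℕ} (hn : 4 ≤ n) (hnm : n ≤ m) (h : UB m p) : UB n p := by
  induction m, hnm using Nat.le_induction with
  | base => exact h
  | succ m hm ih => exact ih (ub_pred (by omega) h)

theorem ub_of_le {n l : ℕ} (hn : 4 ≤ n) (h : n ≤ nn l + 2) : UB n (l - 1) := by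
  refine ub_le hn h (ub_nn l ?_)
  by_contra hl
  have h2 : nn l = l - 3 := nn_small (by omega)
  omega

/-- The exact value: `fStacked n + 1` is the least `l` with `n ≤ nn l + 2`. -/
theorem fStacked_iff (n : ℕ) (hn : 4 ≤ n) (l : ℕ) : fStacked n + 1 ≤ l ↔ n ≤ nn l + 2 := by
  classical
  constructor
  · intro h
    have hex : ∃ k, n ≤ nn (k + 1) + 2 := by
      obtain ⟨V, E, F, hS, hc⟩ := exists_stacked n hn
      obtain ⟨p, -, hp⟩ := Stacked.long_path hS
      exact ⟨p.length, by omega⟩
    have h1 : Nat.find hex ≤ fStacked n := by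
      refine le_fStacked hn fun V E F hS hc => ?_
      obtain ⟨p, hp, hp2⟩ := Stacked.long_path hS
      exact ⟨p, hp, Nat.find_min' hex (by omega)⟩
    have h2 := Nat.find_spec hex
    have h3 : nn (Nat.find hex + 1) ≤ nn l := nn_mono (by omega)
    omega
  · intro h
    have h1 := fStacked_le (ub_of_le hn h)
    have h2 : 1 ≤ l := by
      by_contra hl
      have h2 : nn l = l - 3 := nn_small (by omega)
      omega
    omega

theorem fStacked_isLeast (n : ℕ) (hn : 4 ≤ n) : IsLeast {l | n ≤ nn l + 2} (fStacked n + 1) :=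
  ⟨(fStacked_iff n hn _).1 le_rfl, fun _ hl => (fStacked_iff n hn _).2 hl⟩

end Pool.Agent.Lib.H42M
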