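import Pool.Agent.Lib.H42M.B01

/-!
# A01: the sequence nn: more lemmas
-/

set_option autoImplicit false

namespace Pool.Agent.Lib.H42M

theorem a01_le (l : ℕ) : l ≤ nn l + 3 := by
  induction l with
  | zero => omega
  | succ l ih =>
    rcases Nat.lt_or_ge l 3 with h | h
    · omega
    · have := nn_succ l h
      omega

theorem a01_pos {l : ℕ} (h : 4 ≤ l) : 1 ≤ nn l := by
  have := a01_le l
  omega

theorem a01_pow (i l : ℕ) (h : 6 ≤ l) : nn (2 ^ i * l) = 3 ^ i * nn l := by
  induction i with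
  | zero => simp
  | succ i ih =>
    have h2 : 6 ≤ 2 ^ i * l := by
      have : 1 ≤ 2 ^ i := Nat.one_le_pow _ _ (by norm_num)
      nlinarith
    have e : 2 ^ (i + 1) * l = 2 * (2 ^ i * l) := by ring
    rw [e, nn_even _ h2, ih]; ring

end Pool.Agent.Lib.H42M
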