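import Pool.Agent.Lib.H42M.A01
import Pool.Agent.Lib.H28P.N10

/-!
# A02: the lower bound `8 * (N(l) / 5) ^ alpha ≤ l`
-/

set_option autoImplicit false

namespace Pool.Agent.Lib.H42M

open Pool.Agent.Lib.H28P

theorem rpow_subadd {a b : ℝ} (ha : 0 < a) (hab : a ≤ b) :
    (2 * a + b) ^ alpha ≤ a ^ alpha + b ^ alpha := by
  -- concavity: increments decrease
  have hconc : ConcaveOn ℝ (Set.Ici 0) (fun x : ℝ => x ^ alpha) :=
    Real.concaveOn_rpow alpha_pos.le (by have := alpha_le; linarith)
  set s := 2 * a + b with hs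
  have hb : 0 < b := lt_of_lt_of_le ha hab
  have hd : 0 < a + b := by linarith
  -- b = λ a + (1 - λ) s, 3 a = (1 - λ) a + λ s, λ = 2 a / (a + b)
  set lam := 2 * a / (a + b) with hlam
  have l0 : 0 ≤ lam := by positivity
  have l1 : lam ≤ 1 := by
    rw [hlam, div_le_one hd]; linarith
  have e1 : lam * a + (1 - lam) * s = b := by
    rw [hlam, hs]; field_simp; ring
  have e2 : (1 - lam) * a + lam * s = 3 * a := by
    rw [hlam, hs]; field_simp; ring
  have h1 := hconc.2 (x := a) (y := s) (Set.mem_Ici.2 ha.le) (Set.mem_Ici.2 (by linarith))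
    l0 (by linarith : (0 : ℝ) ≤ 1 - lam) (by ring)
  have h2 := hconc.2 (x := a) (y := s) (Set.mem_Ici.2 ha.le) (Set.mem_Ici.2 (by linarith))
    (by linarith : (0 : ℝ) ≤ 1 - lam) l0 (by ring)
  simp only [smul_eq_mul] at h1 h2
  rw [e1] at h1
  rw [e2] at h2
  have h3 : (3 * a) ^ alpha = 2 * a ^ alpha := by
    rw [Real.mul_rpow (by norm_num) ha.le, three_rpow_alpha]
  rw [h3] at h2
  nlinarith

theorem pw_subadd {a b : ℝ} (ha : 0 < a) (hab : a ≤ b) : pw (2 * a + b) ≤ pw a + pw b := by
  unfold pw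
  have h := rpow_subadd (a := a / 5) (b := b / 5) (by positivity) (by linarith)
  have e : (2 * a + b) / 5 = 2 * (a / 5) + b / 5 := by ring
  rw [e]
  linarith

theorem pw_three {a : ℝ} (ha : 0 ≤ a) : pw (3 * a) = 2 * pw a := by
  have := pw_scale ha 1
  rw [zpow_one, zpow_one] at this
  rw [mul_comm 3 a, this]; ring

theorem pw_small (l : ℕ) (h4 : 4 ≤ l) (h11 : l ≤ 11) : pw ((l : ℝ) - 3) ≤ l := by
  have key : ∀ x P : ℝ, 0 < x → x ≤ 1 → 0 ≤ P → x ^ 41 ≤ P ^ 65 → x ^ alpha ≤ P := by
    intro x P hx0 hx1 hP h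
    have h2 : x ^ alpha ≤ x ^ ((41 : ℝ) / 65) :=
      Real.rpow_le_rpow_of_exponent_ge hx0 hx1 le_alpha
    have e1 : x ^ ((41 : ℝ) / 65) = (x ^ 41) ^ ((1 : ℝ) / 65) := by
      rw [← Real.rpow_natCast, ← Real.rpow_mul hx0.le]
      norm_num
    have e2 : (P ^ 65) ^ ((1 : ℝ) / 65) = P := by
      rw [← Real.rpow_natCast, ← Real.rpow_mul hP]
      norm_num
    have h3 : (x ^ 41) ^ ((1 : ℝ) / 65) ≤ (P ^ 65) ^ ((1 : ℝ) / 65) :=
      Real.rpow_le_rpow (by positivity) h (by norm_num)
    rw [e2] at h3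
    rw [← e1] at h3
    exact h2.trans h3
  unfold pw
  interval_cases l
  · have := key ((4 - 3) / 5) (4 / 8) (by norm_num) (by norm_num) (by norm_num) (by norm_num)
    norm_num at this ⊢
    linarith
  · have := key ((5 - 3) / 5) (5 / 8) (by norm_num) (by norm_num) (by norm_num) (by norm_num)
    norm_num at this ⊢
    linarith
  · have := key ((6 - 3) / 5) (6 / 8) (by norm_num) (by norm_num) (by norm_num) (by norm_num)
    norm_num at this ⊢
    linarith
  · have := key ((7 - 3) / 5) (7 / 8) (by norm_num) (by norm_num) (by norm_num) (by norm_num)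
    norm_num at this ⊢
    linarith
  · norm_num
  · have := pw_le_of_pow (N₀ := 6) (P := 9) (by norm_num) (by norm_num) (by norm_num)
    unfold pw at this
    norm_num at this ⊢
    linarith
  · have := pw_le_of_pow (N₀ := 7) (P := 10) (by norm_num) (by norm_num) (by norm_num)
    unfold pw at this
    norm_num at this ⊢
    linarith
  · have := pw_le_of_pow (N₀ := 8) (P := 11) (by norm_num) (by norm_num) (by norm_num)
    unfold pw at this
    norm_num at this ⊢
    linarith

/-- `N(l) ≤ 5 * (l / 8) ^ (1 / alpha)` in the form used below -/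
theorem pw_nn (l : ℕ) (h4 : 4 ≤ l) : pw (nn l) ≤ l := by
  induction l using Nat.strong_induction_on with
  | _ l ih =>
    rcases Nat.lt_or_ge l 12 with h | h
    · rw [nn_small (show l ≤ 11 by omega), Nat.cast_sub (by omega)]
      push_cast
      exact pw_small l h4 (by omega)
    · rcases Nat.even_or_odd' l with ⟨m, rfl | rfl⟩
      · rw [nn_even m (by omega)]
        push_cast
        rw [pw_three (by positivity)]
        have := ih m (by omega) (by omega)
        linarith
      · rw [nn_odd m (by omega)]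
        push_cast
        have h1 := ih m (by omega) (by omega)
        have h2 := ih (m + 1) (by omega) (by omega)
        have p1 : (0 : ℝ) < nn m := by exact_mod_cast a01_pos (l := m) (by omega)
        have p2 : (nn m : ℝ) ≤ nn (m + 1) := by exact_mod_cast nn_mono (Nat.le_succ m)
        have h3 := pw_subadd p1 p2
        push_cast at h2
        linarith

end Pool.Agent.Lib.H42M
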