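import Pool.Agent.Lib.H42M.A02

/-!
# A03: the constant kappa
-/

set_option autoImplicit false

open Filter Topology

namespace Pool.Agent.Lib.H42M

open Pool.Agent.Lib.H28P

/-- `l / N(l) ^ alpha` -/
noncomputable def Rr (l : ℕ) : ℝ := (l : ℝ) / (nn l : ℝ) ^ alpha

theorem rpow_three_pow' (k : ℕ) : ((3 : ℝ) ^ k) ^ alpha = 2 ^ k := by
  rw [← Real.rpow_natCast 3 k, ← Real.rpow_mul (by norm_num), mul_comm,
    Real.rpow_mul (by norm_num), three_rpow_alpha, Real.rpow_natCast]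

theorem Rr_pow (i l : ℕ) (h : 6 ≤ l) : Rr (2 ^ i * l) = Rr l := by
  unfold Rr
  rw [a01_pow i l h]
  push_cast
  have p : (0 : ℝ) < nn l := by exact_mod_cast a01_pos (l := l) (by omega)
  have q : (0 : ℝ) < (nn l : ℝ) ^ alpha := by positivity
  have p2 : (0 : ℝ) < 2 ^ i := by positivity
  rw [Real.mul_rpow (by positivity) p.le, rpow_three_pow']
  rw [div_eq_div_iff (by positivity) (by positivity)]
  ring

/-- bound on a cell -/
theorem Rr_cell (i L l : ℕ) (h6 : 6 ≤ L) (h1 : 2 ^ i * L ≤ l) (h2 : l < 2 ^ i * (L + 1)) (c : ℝ)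
    (hc : ((L : ℝ) + 1) ≤ c * (nn L : ℝ) ^ alpha) : Rr l ≤ c := by
  have p : (0 : ℝ) < nn L := by exact_mod_cast a01_pos (l := L) (by omega)
  have q : (0 : ℝ) < (nn L : ℝ) ^ alpha := by positivity
  have p2 : (0 : ℝ) < 2 ^ i := by positivity
  have hc0 : 0 ≤ c := by
    by_contra hcon
    have : c * (nn L : ℝ) ^ alpha < 0 := mul_neg_of_neg_of_pos (by linarith) q
    have : (0 : ℝ) ≤ L := Nat.cast_nonneg L
    linarith
  have hN : 3 ^ i * nn L ≤ nn l := by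
    rw [← a01_pow i L h6]
    exact nn_mono h1
  have hN' : (3 : ℝ) ^ i * nn L ≤ nn l := by exact_mod_cast hN
  have hpl : (0 : ℝ) < nn l := lt_of_lt_of_le (by positivity) hN'
  have h3 : (2 : ℝ) ^ i * (nn L : ℝ) ^ alpha ≤ (nn l : ℝ) ^ alpha := by
    rw [← rpow_three_pow', ← Real.mul_rpow (by positivity) p.le]
    exact Real.rpow_le_rpow (by positivity) hN' alpha_pos.le
  have h4 : (l : ℝ) ≤ 2 ^ i * (L + 1) := by exact_mod_cast h2.le
  unfold Rr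
  rw [div_le_iff₀ (by positivity)]
  calc (l : ℝ) ≤ 2 ^ i * (L + 1) := h4
    _ ≤ 2 ^ i * (c * (nn L : ℝ) ^ alpha) := by gcongr
    _ = c * (2 ^ i * (nn L : ℝ) ^ alpha) := by ring
    _ ≤ c * (nn l : ℝ) ^ alpha := by gcongr

/-- dyadic decomposition -/
theorem exists_cell (l : ℕ) (h : 6 ≤ l) :
    ∃ i L : ℕ, 6 ≤ L ∧ L < 12 ∧ 2 ^ i * L ≤ l ∧ l < 2 ^ i * (L + 1) := by
  induction l using Nat.strong_induction_on with
  | _ l ih =>
    rcases Nat.lt_or_ge l 12 with h1 | h1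
    · exact ⟨0, l, h, h1, by simp, by simp⟩
    · obtain ⟨i, L, a, b, c, d⟩ := ih (l / 2) (by omega) (by omega)
      refine ⟨i + 1, L, a, b, ?_, ?_⟩
      · have e : 2 ^ (i + 1) * L = 2 * (2 ^ i * L) := by ring
        omega
      · have e : 2 ^ (i + 1) * (L + 1) = 2 * (2 ^ i * (L + 1)) := by ring
        omega

/-- the checker: the cell `L` with `N = N(L)`, `d = N(L+1) - N(L)`, constant `cn / cd`, exponents
`P / Q ≤ alpha` -/
def chk (cn cd P Q : ℕ) : ℕ → ℕ → ℕ → ℕ → Bool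
  | 0, L, N, _ => Nat.ble (((L + 1) * cd) ^ Q) (cn ^ Q * N ^ P)
  | k + 1, L, N, d => Nat.ble (((L + 1) * cd) ^ Q) (cn ^ Q * N ^ P) ||
      (chk cn cd P Q k (2 * L) (3 * N) d && chk cn cd P Q k (2 * L + 1) (3 * N + d) (2 * d))

theorem bound_sound (cn cd P Q L : ℕ) (hcd : 0 < cd) (hQ : 0 < Q) (hPQ : (P : ℝ) / Q ≤ alpha)
    (h6 : 6 ≤ L) (h : ((L + 1) * cd) ^ Q ≤ cn ^ Q * nn L ^ P) :
    ((L : ℝ) + 1) ≤ (cn : ℝ) / cd * (nn L : ℝ) ^ alpha := by
  have hR : (((L : ℝ) + 1) * cd) ^ Q ≤ (cn : ℝ) ^ Q * (nn L : ℝ) ^ P := by exact_mod_cast h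
  have p : (1 : ℝ) ≤ nn L := by exact_mod_cast a01_pos (l := L) (by omega)
  have hQ' : (0 : ℝ) < Q := by exact_mod_cast hQ
  have hcd' : (0 : ℝ) < cd := by exact_mod_cast hcd
  have h1 : ((L : ℝ) + 1) * cd ≤ cn * (nn L : ℝ) ^ ((P : ℝ) / Q) := by
    have h2 : (((L : ℝ) + 1) * cd) ^ Q ≤ (cn * (nn L : ℝ) ^ ((P : ℝ) / Q)) ^ Q := by
      have e : ((nn L : ℝ) ^ ((P : ℝ) / Q)) ^ Q = (nn L : ℝ) ^ P := by
        rw [← Real.rpow_natCast ((nn L : ℝ) ^ ((P : ℝ) / Q)) Q,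
          ← Real.rpow_mul (by positivity), div_mul_cancel₀ _ hQ'.ne', Real.rpow_natCast]
      rw [mul_pow (cn : ℝ), e]
      exact hR
    exact le_of_pow_le_pow_left₀ (by omega) (by positivity) h2
  have h3 : (nn L : ℝ) ^ ((P : ℝ) / Q) ≤ (nn L : ℝ) ^ alpha :=
    Real.rpow_le_rpow_of_exponent_le p hPQ
  have h4 : ((L : ℝ) + 1) * cd ≤ cn * (nn L : ℝ) ^ alpha :=
    h1.trans (mul_le_mul_of_nonneg_left h3 (Nat.cast_nonneg _))
  rw [div_mul_eq_mul_div, le_div_iff₀ hcd']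
  exact h4

theorem chk_sound (cn cd P Q : ℕ) (hcd : 0 < cd) (hQ : 0 < Q) (hPQ : (P : ℝ) / Q ≤ alpha)
    (k : ℕ) : ∀ L N d : ℕ, 6 ≤ L → N = nn L → nn (L + 1) = N + d → chk cn cd P Q k L N d = true →
      ∀ i l : ℕ, k ≤ i → 2 ^ i * L ≤ l → l < 2 ^ i * (L + 1) → Rr l ≤ (cn : ℝ) / cd := by
  induction k with
  | zero =>
    intro L N d h6 hN hd hc i l _ h1 h2
    subst hN
    have h := Nat.le_of_ble_eq_true hc
    exact Rr_cell i L l h6 h1 h2 _ (bound_sound cn cd P Q L hcd hQ hPQ h6 h)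
  | succ k ih =>
    intro L N d h6 hN hd hc i l hi h1 h2
    rw [chk, Bool.or_eq_true, Bool.and_eq_true] at hc
    rcases hc with hc | ⟨hc1, hc2⟩
    · subst hN
      have h := Nat.le_of_ble_eq_true hc
      exact Rr_cell i L l h6 h1 h2 _ (bound_sound cn cd P Q L hcd hQ hPQ h6 h)
    · obtain ⟨j, rfl⟩ := Nat.exists_eq_add_of_le' (show 1 ≤ i by omega)
      rw [pow_succ] at h1 h2
      rcases Nat.lt_or_ge l (2 ^ j * (2 * L + 1)) with h3 | h3
      · refine ih (2 * L) (3 * N) d (by omega) (by rw [hN, nn_even L h6]) ?_ hc1 j l (by omega)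
          (by nlinarith) h3
        rw [nn_odd L h6, hd, ← hN]; ring
      · refine ih (2 * L + 1) (3 * N + d) (2 * d) (by omega) ?_ ?_ hc2 j l (by omega)
          h3 (by nlinarith)
        · rw [nn_odd L h6, hd, ← hN]; ring
        · have e : 2 * L + 1 + 1 = 2 * (L + 1) := by ring
          rw [e, nn_even (L + 1) (by omega), hd]; ring

/-- all six cells -/
theorem Rr_le (cn cd P Q k : ℕ) (hcd : 0 < cd) (hQ : 0 < Q) (hPQ : (P : ℝ) / Q ≤ alpha)
    (h : ∀ L, 6 ≤ L → L < 12 → chk cn cd P Q k L (L - 3) 1 = true) (l : ℕ) (hl : 6 ≤ l) :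
    Rr l ≤ (cn : ℝ) / cd := by
  rw [← Rr_pow k l hl]
  obtain ⟨i, L, a, b, c, d⟩ := exists_cell l hl
  have hN1 : nn (L + 1) = L - 3 + 1 := by
    rcases Nat.lt_or_ge (L + 1) 12 with h1 | h1
    · rw [nn_small (show L + 1 ≤ 11 by omega)]; omega
    · have : L = 11 := by omega
      subst this
      have e := nn_even 6 le_rfl
      norm_num at e
      show nn 12 = 9
      rw [e, nn_small (show 6 ≤ 11 by norm_num)]
  refine chk_sound cn cd P Q hcd hQ hPQ k L (L - 3) 1 a (by rw [nn_small (show L ≤ 11 by omega)]) hN1 (h L a b)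
    (i + k) (2 ^ k * l) (by omega) ?_ ?_
  · rw [pow_add]; nlinarith [Nat.one_le_two_pow (n := k)]
  · rw [pow_add]
    have : 2 ^ k * l < 2 ^ k * (2 ^ i * (L + 1)) := by
      apply Nat.mul_lt_mul_of_pos_left d; positivity
    nlinarith

end Pool.Agent.Lib.H42M
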