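import Pool.Agent.Lib.H42M.A03

/-!
# A04: numerical bounds for kappa
-/

set_option autoImplicit false

namespace Pool.Agent.Lib.H42M

open Pool.Agent.Lib.H28P

theorem nat1 : 3 ^ 306 ≤ 2 ^ 485 := Nat.le_of_ble_eq_true (by decide +kernel)

theorem nat2 : 2 ^ 1054 ≤ 3 ^ 665 := Nat.le_of_ble_eq_true (by decide +kernel)

theorem nat3 : 20722 ^ 665 * 3076 ^ 1054 < 1627000 ^ 1054 :=
  Nat.lt_of_succ_le (Nat.le_of_ble_eq_true (by decide +kernel))

theorem le_alpha' : (306 : ℝ) / 485 ≤ alpha := by
  unfold alpha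
  rw [div_le_div_iff₀ (by norm_num) log3_pos]
  have h : Real.log ((3 : ℝ) ^ 306) ≤ Real.log ((2 : ℝ) ^ 485) :=
    Real.log_le_log (by positivity) (by exact_mod_cast nat1)
  rw [Real.log_pow, Real.log_pow] at h
  push_cast at h
  linarith

theorem alpha_le' : alpha ≤ 665 / 1054 := by
  unfold alpha
  rw [div_le_div_iff₀ log3_pos (by norm_num)]
  have h : Real.log ((2 : ℝ) ^ 1054) ≤ Real.log ((3 : ℝ) ^ 665) :=
    Real.log_le_log (by positivity) (by exact_mod_cast nat2)
  rw [Real.log_pow, Real.log_pow] at h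
  push_cast at h
  linarith

theorem chk_six : chk 3077 1000 306 485 11 6 3 1 = true := by decide +kernel
theorem chk_seven : chk 3077 1000 306 485 11 7 4 1 = true := by decide +kernel
theorem chk_eight : chk 3077 1000 306 485 11 8 5 1 = true := by decide +kernel
theorem chk_nine : chk 3077 1000 306 485 11 9 6 1 = true := by decide +kernel
theorem chk_ten : chk 3077 1000 306 485 11 10 7 1 = true := by decide +kernel
theorem chk_eleven : chk 3077 1000 306 485 11 11 8 1 = true := by decide +kernel

theorem Rr_le_3077 (l : ℕ) (hl : 6 ≤ l) : Rr l ≤ 3.077 := by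
  have h := Rr_le 3077 1000 306 485 11 (by norm_num) (by norm_num)
    (by have := le_alpha'; norm_num; linarith) (by
      intro L h6 h12
      interval_cases L
      · exact chk_six
      · exact chk_seven
      · exact chk_eight
      · exact chk_nine
      · exact chk_ten
      · exact chk_eleven) l hl
  norm_num at h ⊢
  exact h

theorem nn_1627 : nn 1627 = 20722 := by
  have n6 : nn 6 = 3 := nn_small (show 6 ≤ 11 by norm_num)
  have n7 : nn 7 = 4 := nn_small (show 7 ≤ 11 by norm_num)
  have n12 : nn 12 = 9 := by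
    have h := nn_even 6 (by norm_num)
    norm_num at h
    rw [h, n6]
  have n13 : nn 13 = 10 := by
    have h := nn_odd 6 (by norm_num)
    norm_num at h
    rw [h, n6, n7]
  have n25 : nn 25 = 28 := by
    have h := nn_odd 12 (by norm_num)
    norm_num at h
    rw [h, n12, n13]
  have n26 : nn 26 = 30 := by
    have h := nn_even 13 (by norm_num)
    norm_num at h
    rw [h, n13]
  have n50 : nn 50 = 84 := by
    have h := nn_even 25 (by norm_num)
    norm_num at h
    rw [h, n25]
  have n51 : nn 51 = 86 := by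
    have h := nn_odd 25 (by norm_num)
    norm_num at h
    rw [h, n25, n26]
  have n101 : nn 101 = 254 := by
    have h := nn_odd 50 (by norm_num)
    norm_num at h
    rw [h, n50, n51]
  have n102 : nn 102 = 258 := by
    have h := nn_even 51 (by norm_num)
    norm_num at h
    rw [h, n51]
  have n203 : nn 203 = 766 := by
    have h := nn_odd 101 (by norm_num)
    norm_num at h
    rw [h, n101, n102]
  have n204 : nn 204 = 774 := by
    have h := nn_even 102 (by norm_num)
    norm_num at h
    rw [h, n102]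
  have n406 : nn 406 = 2298 := by
    have h := nn_even 203 (by norm_num)
    norm_num at h
    rw [h, n203]
  have n407 : nn 407 = 2306 := by
    have h := nn_odd 203 (by norm_num)
    norm_num at h
    rw [h, n203, n204]
  have n813 : nn 813 = 6902 := by
    have h := nn_odd 406 (by norm_num)
    norm_num at h
    rw [h, n406, n407]
  have n814 : nn 814 = 6918 := by
    have h := nn_even 407 (by norm_num)
    norm_num at h
    rw [h, n407]
  have n1627 : nn 1627 = 20722 := by
    have h := nn_odd 813 (by norm_num)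
    norm_num at h
    rw [h, n813, n814]
  exact n1627

theorem lt_Rr_1627 : 3.076 < Rr 1627 := by
  unfold Rr
  rw [nn_1627]
  have h1 : ((20722 : ℕ) : ℝ) ^ alpha ≤ (20722 : ℝ) ^ ((665 : ℝ) / 1054) := by
    push_cast
    exact Real.rpow_le_rpow_of_exponent_le (by norm_num) alpha_le'
  have h2 : (20722 : ℝ) ^ ((665 : ℝ) / 1054) < 1627 / 3.076 := by
    have e1 : (20722 : ℝ) ^ ((665 : ℝ) / 1054) = ((20722 : ℝ) ^ 665) ^ ((1 : ℝ) / 1054) := by
      rw [← Real.rpow_natCast, ← Real.rpow_mul (by norm_num)]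
      norm_num
    have e2 : ((1627 / 3.076 : ℝ) ^ 1054) ^ ((1 : ℝ) / 1054) = 1627 / 3.076 := by
      rw [← Real.rpow_natCast, ← Real.rpow_mul (by norm_num)]
      norm_num
    have h3 : (20722 : ℝ) ^ 665 < (1627 / 3.076 : ℝ) ^ 1054 := by
      have h6 : (20722 : ℝ) ^ 665 * 3076 ^ 1054 < 1627000 ^ 1054 := by exact_mod_cast nat3
      have e3 : (1627 / 3.076 : ℝ) = 1627000 / 3076 := by norm_num
      rw [e3, div_pow, lt_div_iff₀ (by positivity)]
      exact h6
    have h4 : ((20722 : ℝ) ^ 665) ^ ((1 : ℝ) / 1054) < ((1627 / 3.076 : ℝ) ^ 1054) ^ ((1 : ℝ) / 1054) :=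
      Real.rpow_lt_rpow (by positivity) h3 (by norm_num)
    rw [e2] at h4
    rw [e1]
    exact h4
  have hpos : (0 : ℝ) < ((20722 : ℕ) : ℝ) ^ alpha := by positivity
  rw [lt_div_iff₀ hpos]
  have h5 : ((20722 : ℕ) : ℝ) ^ alpha < 1627 / 3.076 := lt_of_le_of_lt h1 h2
  rw [lt_div_iff₀ (by norm_num)] at h5
  push_cast at h5 ⊢
  linarith

end Pool.Agent.Lib.H42M
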