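import Pool.Agent.Lib.H42M.A04

/-!
# A05: lower and upper limits from the exact formula
-/

set_option autoImplicit false

open Filter Topology

namespace Pool.Agent.Lib.H42M

open Pool.Agent.Lib.H28P

/-- the constant of the upper limit -/
noncomputable def Lam : ℝ := sSup ((fun l : ℕ => (l : ℝ) / (nn l : ℝ) ^ alpha) '' Set.Ici 6)

theorem a05_bdd : BddAbove ((fun l : ℕ => (l : ℝ) / (nn l : ℝ) ^ alpha) '' Set.Ici 6) := by
  refine ⟨3.077, ?_⟩
  rintro x ⟨l, hl, rfl⟩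
  exact Rr_le_3077 l hl

theorem a05_le_Lam (l : ℕ) (hl : 6 ≤ l) : Rr l ≤ Lam := le_csSup a05_bdd ⟨l, hl, rfl⟩

theorem Lam_lt : Lam ≤ 3.077 := by
  apply csSup_le
  · exact ⟨_, 6, Set.mem_Ici.2 le_rfl, rfl⟩
  · rintro x ⟨l, hl, rfl⟩
    exact Rr_le_3077 l hl

theorem lt_Lam : 3.076 < Lam := lt_of_lt_of_le lt_Rr_1627 (a05_le_Lam 1627 (by norm_num))

section

variable {g : ℕ → ℕ} (hex : ∀ n, 4 ≤ n → ∀ l, g n + 1 ≤ l ↔ n ≤ nn l + 2)

include hex

theorem a05_inv (n : ℕ) (hn : 4 ≤ n) : n ≤ nn (g n + 1) + 2 := (hex n hn _).1 le_rfl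

theorem a05_inv' (n : ℕ) (hn : 4 ≤ n) : nn (g n) + 2 < n := by
  by_contra h
  have := (hex n hn (g n)).2 (by omega)
  omega

theorem a05_four (n : ℕ) (hn : 4 ≤ n) : 4 ≤ g n := by
  by_contra h
  have h1 := a05_inv hex n hn
  have h2 : nn (g n + 1) ≤ nn 4 := nn_mono (by omega)
  have h3 : nn 4 = 4 - 3 := nn_small (by norm_num)
  omega

/-- the lower bound for all `n ≥ 4` -/
theorem a05_lower (n : ℕ) (hn : 4 ≤ n) : pw ((n : ℝ) - 2) ≤ (g n : ℝ) + 1 := by
  have h1 := a05_inv hex n hn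
  have h2 := pw_nn (g n + 1) (by have := a05_four hex n hn; omega)
  have h4 : (4 : ℝ) ≤ n := by exact_mod_cast hn
  have h3 : pw ((n : ℝ) - 2) ≤ pw (nn (g n + 1)) := by
    unfold pw
    have h5 : (n : ℝ) - 2 ≤ nn (g n + 1) := by
      have : (n : ℝ) ≤ nn (g n + 1) + 2 := by exact_mod_cast h1
      linarith
    have h6 : (((n : ℝ) - 2) / 5) ^ alpha ≤ ((nn (g n + 1) : ℝ) / 5) ^ alpha :=
      Real.rpow_le_rpow (by apply div_nonneg <;> linarith) (by linarith) alpha_pos.le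
    linarith
  push_cast at h2
  linarith

/-- the upper bound for large `n` -/
theorem a05_upper (n : ℕ) (hn : 8 ≤ n) : (g n : ℝ) / (n : ℝ) ^ alpha ≤ Lam := by
  have h1 := a05_inv' hex n (by omega)
  have h2 : 6 ≤ g n := by
    by_contra h
    have h3 := a05_inv hex n (by omega)
    have h4 : nn (g n + 1) ≤ nn 6 := nn_mono (by omega)
    have h5 : nn 6 = 6 - 3 := nn_small (by norm_num)
    omega
  have h3 := a05_le_Lam (g n) h2
  have p : (0 : ℝ) < nn (g n) := by exact_mod_cast a01_pos (l := g n) (by omega)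
  have h4 : (nn (g n) : ℝ) ^ alpha ≤ (n : ℝ) ^ alpha :=
    Real.rpow_le_rpow p.le (by exact_mod_cast (by omega : nn (g n) ≤ n)) alpha_pos.le
  refine le_trans ?_ h3
  unfold Rr
  gcongr

theorem a05_upper_seq (l k : ℕ) (hl : 6 ≤ l) : 2 ^ k * l ≤ g (3 ^ k * nn l + 3) := by
  have h0 : 1 ≤ 3 ^ k * nn l := Nat.mul_pos (by positivity) (a01_pos (l := l) (by omega))
  by_contra h
  have h1 := (hex (3 ^ k * nn l + 3) (by omega) (2 ^ k * l)).1 (by omega)
  rw [a01_pow k l hl] at h1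
  omega

end

end Pool.Agent.Lib.H42M
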