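import Pool.Agent.Lib.H42M.A06

/-!
# A07: all limit points
-/

set_option autoImplicit false

open Filter Topology

namespace Pool.Agent.Lib.H42M

open Pool.Agent.Lib.H28P

/-- A sequence with steps tending to zero passes close to every number between two numbers which
it approaches. -/
theorem cluster_of_steps {x : ℕ → ℝ} {c a b : ℝ}
    (hs : ∀ ε : ℝ, 0 < ε → ∀ᶠ n in atTop, x (n + 1) - x n < ε)
    (ha : ∀ ε : ℝ, 0 < ε → ∃ᶠ n in atTop, x n < a + ε)
    (hb : ∀ ε : ℝ, 0 < ε → ∃ᶠ n in atTop, b - ε < x n) (h1 : a ≤ c) (h2 : c ≤ b) :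
    MapClusterPt c atTop x := by
  rw [mapClusterPt_iff_frequently]
  intro s hs'
  obtain ⟨ε, hε, hball⟩ := Metric.mem_nhds_iff.1 hs'
  rw [frequently_atTop]
  intro N
  obtain ⟨N', hN'⟩ := eventually_atTop.1 (hs ε hε)
  obtain ⟨n₁, hn₁, h3⟩ := frequently_atTop.1 (ha ε hε) (max N N')
  obtain ⟨n₂, hn₂, h4⟩ := frequently_atTop.1 (hb ε hε) n₁
  have hn₁' : N ≤ n₁ ∧ N' ≤ n₁ := max_le_iff.1 hn₁
  classical
  have hex : ∃ m, n₁ ≤ m ∧ c - ε < x m := ⟨n₂, hn₂, by linarith⟩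
  obtain ⟨h5, h6⟩ := Nat.find_spec hex
  refine ⟨Nat.find hex, by omega, hball ?_⟩
  rw [Metric.mem_ball, Real.dist_eq, abs_lt]
  rcases Nat.eq_or_lt_of_le h5 with h7 | h7
  · rw [← h7] at h6 ⊢
    constructor <;> linarith
  · obtain ⟨m, hm⟩ : ∃ m, Nat.find hex = m + 1 := ⟨Nat.find hex - 1, by omega⟩
    have h8 : ¬ (n₁ ≤ m ∧ c - ε < x m) := Nat.find_min hex (by omega)
    have h9 : x m ≤ c - ε := by
      by_contra h
      exact h8 ⟨by omega, by linarith⟩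
    have h10 := hN' m (by omega)
    rw [hm] at h6 ⊢
    constructor <;> linarith

section

variable {g : ℕ → ℕ} (hex : ∀ n, 4 ≤ n → ∀ l, g n + 1 ≤ l ↔ n ≤ nn l + 2)

include hex

theorem a07_step (n : ℕ) (hn : 4 ≤ n) : g (n + 1) ≤ g n + 1 := by
  have h4 := a05_four hex n hn
  have h1 := a05_inv hex n hn
  have h2 := (hex (n + 1) (by omega) (g n + 2)).2 (by
    have := nn_succ (g n + 1) (by omega)
    have e : g n + 1 + 1 = g n + 2 := rfl
    rw [e] at this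
    omega)
  omega

theorem a07_cluster (c : ℝ) (h1 : 8 / 5 ^ alpha ≤ c) (h2 : c ≤ Lam) :
    MapClusterPt c atTop (fun n : ℕ => (g n : ℝ) / (n : ℝ) ^ alpha) := by
  refine cluster_of_steps (a := 8 / 5 ^ alpha) (b := Lam) ?_ ?_ ?_ h1 h2
  · intro ε hε
    have ht : Tendsto (fun n : ℕ => ((n : ℝ) ^ alpha)⁻¹) atTop (𝓝 0) :=
      tendsto_inv_atTop_zero.comp ((tendsto_rpow_atTop alpha_pos).comp tendsto_natCast_atTop_atTop)
    filter_upwards [ht.eventually (gt_mem_nhds hε), eventually_ge_atTop 4] with n hn h4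
    have h5 : (g (n + 1) : ℝ) ≤ g n + 1 := by exact_mod_cast a07_step hex n h4
    have hn0 : (0 : ℝ) < n := by
      have : (4 : ℝ) ≤ n := by exact_mod_cast h4
      linarith
    have p : (0 : ℝ) < (n : ℝ) ^ alpha := by positivity
    have h6 : (n : ℝ) ^ alpha ≤ ((n + 1 : ℕ) : ℝ) ^ alpha :=
      Real.rpow_le_rpow hn0.le (by push_cast; linarith) alpha_pos.le
    have h7 : (g (n + 1) : ℝ) / ((n + 1 : ℕ) : ℝ) ^ alpha ≤ (g n + 1) / (n : ℝ) ^ alpha := by
      gcongr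
    have h8 : ((g n : ℝ) + 1) / (n : ℝ) ^ alpha = g n / (n : ℝ) ^ alpha + ((n : ℝ) ^ alpha)⁻¹ := by
      rw [add_div, one_div]
    linarith
  · intro ε hε
    exact (a06_frequently_le hex).mono fun n hn => by linarith
  · intro ε hε
    have hlt : Lam - ε < Lam := by linarith
    have hne : ((fun l : ℕ => (l : ℝ) / (nn l : ℝ) ^ alpha) '' Set.Ici 6).Nonempty :=
      ⟨_, 6, Set.mem_Ici.2 le_rfl, rfl⟩
    obtain ⟨y, ⟨l, hl, rfl⟩, hy⟩ := exists_lt_of_lt_csSup hne hlt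
    refine (a06_frequently_ge hex l hl ((Rr l - (Lam - ε)) / 2) ?_).mono fun n hn => ?_
    · have : Lam - ε < Rr l := hy
      linarith
    · have : Lam - ε < Rr l := hy
      linarith

end

end Pool.Agent.Lib.H42M
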