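import Pool.Agent.Lib.H42M.B01

/-!
# A08: closed formula for `nn`
-/

set_option autoImplicit false

namespace Pool.Agent.Lib.H42M

open Pool.Agent.Lib.H28P

theorem digits_two_even (k : ℕ) : (Nat.digits 2 (2 * k)).sum = (Nat.digits 2 k).sum := by
  rcases Nat.eq_zero_or_pos k with rfl | hk
  · simp
  · have h := Nat.digits_add 2 (by norm_num) 0 k (by norm_num) (Or.inr (by omega))
    rw [zero_add] at h
    rw [h]
    simp

theorem digits_two_odd (k : ℕ) : (Nat.digits 2 (2 * k + 1)).sum = (Nat.digits 2 k).sum + 1 := by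
  have h := Nat.digits_add 2 (by norm_num) 1 k (by norm_num) (Or.inl (by norm_num))
  rw [add_comm 1 (2 * k)] at h
  rw [h]
  simp [add_comm]

theorem a_succ_digits (n : ℕ) : a (n + 1) = a n + 2 ^ (Nat.digits 2 n).sum := by
  induction n using Nat.strong_induction_on with
  | _ n ih =>
    rcases Nat.even_or_odd' n with ⟨k, rfl | rfl⟩
    · rcases Nat.eq_zero_or_pos k with rfl | hk
      · simp [a_one, a_zero]
      · rw [digits_two_even, a_odd, a_even, ih k (by omega)]
        ring
    · have e : 2 * k + 1 + 1 = 2 * (k + 1) := by ring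
      rw [digits_two_odd, e, a_even, a_odd, ih k (by omega)]
      ring

theorem a_eq_sum (n : ℕ) : a n = ∑ i ∈ Finset.range n, 2 ^ (Nat.digits 2 i).sum := by
  induction n with
  | zero => simp [a_zero]
  | succ n ih => rw [Finset.sum_range_succ, ← ih, a_succ_digits]

theorem nn_closed (m : ℕ) (h6 : 6 ≤ m) (h11 : m ≤ 11) (j : ℕ) : ∀ r : ℕ, r ≤ 2 ^ j →
    nn (2 ^ j * m + r) = 3 ^ j * (m - 3) + a r := by
  induction j with
  | zero =>
    intro r hr
    have hr : r = 0 ∨ r = 1 := by
      rw [pow_zero] at hr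
      omega
    rcases hr with rfl | rfl
    · rw [a_zero, nn_le_thirteen (by omega)]
      simp
    · rw [a_one, nn_le_thirteen (by omega)]
      omega
  | succ j ih =>
    intro r hr
    have hm : 6 ≤ 2 ^ j * m := by
      have : 1 ≤ 2 ^ j := Nat.one_le_two_pow
      nlinarith
    have e2 : 2 ^ (j + 1) = 2 * 2 ^ j := by ring
    have e3 : 3 ^ (j + 1) * (m - 3) = 3 * (3 ^ j * (m - 3)) := by ring
    rcases Nat.even_or_odd' r with ⟨k, rfl | rfl⟩
    · have h1 := ih k (by omega)
      have e : 2 ^ (j + 1) * m + 2 * k = 2 * (2 ^ j * m + k) := by ring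
      rw [e, nn_even _ (by omega), h1, a_even, e3]
      ring
    · have h1 := ih k (by omega)
      have h2 := ih (k + 1) (by omega)
      have e : 2 ^ (j + 1) * m + (2 * k + 1) = 2 * (2 ^ j * m + k) + 1 := by ring
      rw [e, nn_odd _ (by omega), h1, add_assoc (2 ^ j * m) k 1, h2, a_odd, e3]
      ring

theorem nn_formula (j m r : ℕ) (h6 : 6 ≤ m) (h11 : m ≤ 11) (hr : r ≤ 2 ^ j) :
    nn (2 ^ j * m + r) = 3 ^ j * (m - 3) + ∑ i ∈ Finset.range r, 2 ^ (Nat.digits 2 i).sum := by
  rw [nn_closed m h6 h11 j r hr, a_eq_sum]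

end Pool.Agent.Lib.H42M
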