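import Pool.Agent.Lib.H42M.A07

/-!
# A09: the limit points
-/

set_option autoImplicit false

open Filter Topology

namespace Pool.Agent.Lib.H42M

open Pool.Agent.Lib.H28P

theorem eight_le_three : (8 : ℝ) / 5 ^ alpha ≤ 3 := by
  have h5 : (8 : ℝ) / 3 ≤ 5 ^ alpha := by
    have h6 : (5 : ℝ) ^ ((41 : ℝ) / 65) ≤ 5 ^ alpha :=
      Real.rpow_le_rpow_of_exponent_le (by norm_num) le_alpha
    have e1 : (5 : ℝ) ^ ((41 : ℝ) / 65) = (5 ^ 41) ^ ((1 : ℝ) / 65) := by
      rw [← Real.rpow_natCast, ← Real.rpow_mul (by norm_num)]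
      norm_num
    have e2 : (((8 : ℝ) / 3) ^ 65) ^ ((1 : ℝ) / 65) = 8 / 3 := by
      rw [← Real.rpow_natCast, ← Real.rpow_mul (by norm_num)]
      norm_num
    have h7 : (((8 : ℝ) / 3) ^ 65) ^ ((1 : ℝ) / 65) ≤ (5 ^ 41) ^ ((1 : ℝ) / 65) :=
      Real.rpow_le_rpow (by positivity) (by norm_num) (by norm_num)
    rw [e2, ← e1] at h7
    exact h7.trans h6
  rw [div_le_iff₀ (by positivity)]
  linarith

theorem eight_lt_Lam : (8 : ℝ) / 5 ^ alpha < Lam := by
  have h1 := eight_le_three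
  have h2 := lt_Lam
  norm_num at h2
  linarith

section

variable {g : ℕ → ℕ} (hex : ∀ n, 4 ≤ n → ∀ l, g n + 1 ≤ l ↔ n ≤ nn l + 2)

include hex

theorem a09_cluster (c : ℝ) :
    MapClusterPt c atTop (fun n : ℕ => (g n : ℝ) / (n : ℝ) ^ alpha) ↔
      8 / 5 ^ alpha ≤ c ∧ c ≤ Lam := by
  constructor
  · intro h
    rw [mapClusterPt_iff_frequently] at h
    constructor
    · by_contra hcon
      rw [not_le] at hcon
      have h1 := h (Set.Iio ((c + 8 / 5 ^ alpha) / 2)) (Iio_mem_nhds (by linarith))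
      have h2 := a06_eventually_ge hex ((8 / 5 ^ alpha - c) / 2) (by linarith)
      obtain ⟨n, h3, h4⟩ := (h1.and_eventually h2).exists
      rw [Set.mem_Iio] at h3
      linarith
    · by_contra hcon
      rw [not_le] at hcon
      have h1 := h (Set.Ioi Lam) (Ioi_mem_nhds hcon)
      obtain ⟨n, h3, h4⟩ := (h1.and_eventually (eventually_ge_atTop 8)).exists
      have h5 := a05_upper hex n h4
      rw [Set.mem_Ioi] at h3
      linarith
  · rintro ⟨h1, h2⟩
    exact a07_cluster hex c h1 h2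

end

end Pool.Agent.Lib.H42M
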