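import Pool.Agent.Lib.H42M.Defs

/-!
# B01: the sequence `nn`
-/

set_option autoImplicit false

namespace Pool.Agent.Lib.H42M

open Pool.Agent.Lib.H28P

theorem nn_small {l : ℕ} (h : l ≤ 11) : nn l = l - 3 := by
  rw [nn, dif_pos (by omega)]

theorem nn_even (k : ℕ) (hk : 6 ≤ k) : nn (2 * k) = 3 * nn k := by
  rw [nn, dif_neg (by omega)]
  have h1 : 2 * k / 2 = k := by omega
  have h2 : (2 * k + 1) / 2 = k := by omega
  rw [h1, h2]; ring

theorem nn_odd (k : ℕ) (hk : 6 ≤ k) : nn (2 * k + 1) = 2 * nn k + nn (k + 1) := by
  rw [nn, dif_neg (by omega)]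
  have h1 : (2 * k + 1) / 2 = k := by omega
  have h2 : (2 * k + 1 + 1) / 2 = k + 1 := by omega
  rw [h1, h2]

/-- for `l ≥ 3` the sequence is strictly increasing -/
theorem nn_succ (l : ℕ) (hl : 3 ≤ l) : nn l + 1 ≤ nn (l + 1) := by
  induction l using Nat.strong_induction_on with
  | _ l ih =>
    rcases Nat.lt_or_ge l 11 with h | h
    · rw [nn_small (by omega), nn_small (by omega)]; omega
    · rcases Nat.eq_or_lt_of_le h with h | h
      · subst h
        have h12 : nn (2 * 6) = 3 * nn 6 := nn_even 6 le_rfl
        have h6 : nn 6 = 6 - 3 := nn_small (by omega)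
        have h11 : nn 11 = 11 - 3 := nn_small (by omega)
        have e : (2 * 6 : ℕ) = 11 + 1 := rfl
        rw [e] at h12
        omega
      · rcases Nat.even_or_odd' l with ⟨k, rfl | rfl⟩
        · rw [nn_even k (by omega), nn_odd k (by omega)]
          have := ih k (by omega) (by omega)
          omega
        · have e : 2 * k + 1 + 1 = 2 * (k + 1) := by ring
          rw [e, nn_even (k + 1) (by omega), nn_odd k (by omega)]
          have := ih k (by omega) (by omega)
          omega

theorem nn_le_succ (l : ℕ) : nn l ≤ nn (l + 1) := by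
  rcases Nat.lt_or_ge l 3 with h | h
  · rw [nn_small (by omega)]; omega
  · have := nn_succ l h; omega

theorem nn_mono : Monotone nn := monotone_nat_of_le_succ nn_le_succ

theorem nn_add_le (l j : ℕ) (hl : 3 ≤ l) : nn l + j ≤ nn (l + j) := by
  induction j with
  | zero => simp
  | succ j ih =>
    have := nn_succ (l + j) (by omega)
    have e : l + (j + 1) = l + j + 1 := by ring
    rw [e]
    omega

theorem nn_ge (l : ℕ) : l - 3 ≤ nn l := by
  rcases Nat.lt_or_ge l 3 with h | h
  · omega
  · have := nn_add_le 3 (l - 3) le_rfl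
    have e : 3 + (l - 3) = l := by omega
    rw [e] at this
    omega

theorem nn_twelve : nn 12 = 9 := by
  have := nn_even 6 le_rfl
  rw [nn_small (l := 6) (by omega)] at this
  simpa using this

theorem nn_le_thirteen {l : ℕ} (h : l ≤ 13) : nn l = l - 3 := by
  rcases Nat.lt_or_ge l 12 with h' | h'
  · exact nn_small (by omega)
  · have h3 : nn 13 = 10 := by
      have := nn_odd 6 le_rfl
      rw [nn_small (l := 6) (by omega), nn_small (l := 7) (by omega)] at this
      simpa using this
    interval_cases l
    · rw [nn_twelve]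
    · rw [h3]

/-- base case of `nn_super` -/
theorem nn_super_small (i j : ℕ) (h6 : 6 ≤ i) (h11 : i ≤ 11) (hij : i ≤ j) :
    2 * nn i + nn j ≤ nn (i + j) := by
  rw [nn_small h11]
  rcases Nat.lt_or_ge j 12 with hj | hj
  · interval_cases i <;> interval_cases j <;> (simp [nn])
  · rcases Nat.even_or_odd' j with ⟨q, rfl | rfl⟩ <;> rcases Nat.even_or_odd' i with ⟨p, rfl | rfl⟩
    · have e : 2 * p + 2 * q = 2 * (q + p) := by ring
      rw [e, nn_even _ (by omega), nn_even _ (by omega)]
      have := nn_add_le q p (by omega)
      omega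
    · have e : 2 * p + 1 + 2 * q = 2 * (q + p) + 1 := by ring
      rw [e, nn_even _ (by omega), nn_odd _ (by omega)]
      have := nn_add_le q p (by omega)
      have := nn_add_le q (p + 1) (by omega)
      have e2 : q + (p + 1) = q + p + 1 := by ring
      rw [e2] at this
      omega
    · have e : 2 * p + (2 * q + 1) = 2 * (q + p) + 1 := by ring
      rw [e, nn_odd _ (by omega), nn_odd _ (by omega)]
      have := nn_add_le q p (by omega)
      have := nn_add_le (q + 1) p (by omega)
      have e2 : q + 1 + p = q + p + 1 := by ring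
      rw [e2] at this
      omega
    · have e : 2 * p + 1 + (2 * q + 1) = 2 * (q + p + 1) := by ring
      rw [e, nn_even _ (by omega), nn_odd _ (by omega)]
      have h1 := nn_add_le q (p + 1) (by omega)
      have h2 := nn_add_le (q + 1) p (by omega)
      have e2 : q + 1 + p = q + p + 1 := by ring
      have e3 : q + (p + 1) = q + p + 1 := by ring
      rw [e2] at h2
      rw [e3] at h1
      omega

theorem nn_super (n : ℕ) : ∀ i j : ℕ, i + j = n → 6 ≤ i → i ≤ j → 2 * nn i + nn j ≤ nn (i + j) := by
  induction n using Nat.strong_induction_on with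
  | _ n ih =>
    intro i j hn h6 hij
    rcases Nat.lt_or_ge i 12 with h12 | h12
    · exact nn_super_small i j h6 (by omega) hij
    rcases Nat.even_or_odd' i with ⟨p, rfl | rfl⟩ <;> rcases Nat.even_or_odd' j with ⟨q, rfl | rfl⟩
    · have h := ih (p + q) (by omega) p q rfl (by omega) (by omega)
      have e : 2 * p + 2 * q = 2 * (p + q) := by ring
      rw [e, nn_even _ (by omega), nn_even _ (by omega), nn_even _ (by omega)]
      omega
    · have h1 := ih (p + q) (by omega) p q rfl (by omega) (by omega)
      have h2 := ih (p + (q + 1)) (by omega) p (q + 1) rfl (by omega) (by omega)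
      have e : 2 * p + (2 * q + 1) = 2 * (p + q) + 1 := by ring
      rw [e, nn_even _ (by omega), nn_odd _ (by omega), nn_odd _ (by omega)]
      rw [← add_assoc] at h2
      omega
    · have h1 := ih (p + q) (by omega) p q rfl (by omega) (by omega)
      have h2 := ih ((p + 1) + q) (by omega) (p + 1) q rfl (by omega) (by omega)
      have e : 2 * p + 1 + 2 * q = 2 * (p + q) + 1 := by ring
      have e2 : p + 1 + q = p + q + 1 := by ring
      rw [e, nn_even _ (by omega), nn_odd _ (by omega), nn_odd _ (by omega)]
      rw [e2] at h2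
      omega
    · have e : 2 * p + 1 + (2 * q + 1) = 2 * (p + q + 1) := by ring
      rw [e, nn_even _ (by omega), nn_odd _ (by omega), nn_odd _ (by omega)]
      rcases Nat.lt_or_ge p q with hpq | hpq
      · have h2 := ih ((p + 1) + q) (by omega) (p + 1) q rfl (by omega) (by omega)
        have h3 := ih (p + (q + 1)) (by omega) p (q + 1) rfl (by omega) (by omega)
        have e2 : p + 1 + q = p + q + 1 := by ring
        have e3 : p + (q + 1) = p + q + 1 := by ring
        have h4 := nn_le_succ q
        rw [e2] at h2
        rw [e3] at h3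
        omega
      · have hpq : p = q := by omega
        subst hpq
        have e4 : p + p + 1 = 2 * p + 1 := by ring
        rw [e4, nn_odd _ (by omega)]
        omega

theorem nn_add (i j : ℕ) (h6 : 6 ≤ i) (hij : i ≤ j) : 2 * nn i + nn j ≤ nn (i + j) :=
  nn_super _ i j rfl h6 hij

end Pool.Agent.Lib.H42M
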