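import Pool.Agent.Lib.H42M.B01

/-!
# B02: the halving lemma
-/

set_option autoImplicit false

namespace Pool.Agent.Lib.H42M

open Pool.Agent.Lib.H28P

theorem a_two : a 2 = 3 := by
  have := a_even 1
  simpa [a_one] using this

theorem a_three : a 3 = 5 := by
  have := a_odd 1
  simpa [a_one, a_two] using this

theorem a_halve (x : ℕ) : a x = 2 * a (x / 2) + a ((x + 1) / 2) := by
  rcases Nat.even_or_odd' x with ⟨k, rfl | rfl⟩
  · have h1 : 2 * k / 2 = k := by omega
    have h2 : (2 * k + 1) / 2 = k := by omega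
    rw [h1, h2, a_even]; ring
  · have h1 : (2 * k + 1) / 2 = k := by omega
    have h2 : (2 * k + 1 + 1) / 2 = k + 1 := by omega
    rw [h1, h2, a_odd]

theorem sum_halve (l : List ℕ) :
    (l.map a).sum = 2 * ((l.map (· / 2)).map a).sum + ((l.map (fun x => (x + 1) / 2)).map a).sum := by
  induction l with
  | nil => simp
  | cons x l ih =>
    simp only [List.map_cons, List.sum_cons]
    rw [ih, a_halve x]
    ring

theorem sum_split (l : List ℕ) :
    l.sum = (l.map (· / 2)).sum + (l.map (fun x => (x + 1) / 2)).sum := by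
  induction l with
  | nil => simp
  | cons x l ih =>
    simp only [List.map_cons, List.sum_cons]
    rw [ih]
    omega

theorem sum_le_split (l : List ℕ) :
    (l.map (· / 2)).sum ≤ (l.map (fun x => (x + 1) / 2)).sum := by
  induction l with
  | nil => simp
  | cons x l ih =>
    simp only [List.map_cons, List.sum_cons]
    omega

theorem length_le_sum (l : List ℕ) (p : ℕ) (h : ∀ x ∈ l, p ≤ x) : l.length * p ≤ l.sum := by
  induction l with
  | nil => simp
  | cons x l ih =>
    simp only [List.length_cons, List.sum_cons]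
    have h1 := h x (by simp)
    have h2 := ih (fun y hy => h y (by simp [hy]))
    nlinarith

/-- base case `p = 1` -/
theorem key_base (d u : List ℕ) (hd : ∀ x ∈ d, 1 ≤ x ∧ x ≤ 3) (hu : ∀ x ∈ u, x ≤ 1) :
    (d.map a).sum + 2 * (u.map a).sum + d.length = 2 * (d.sum + u.sum) := by
  have h1 : (d.map a).sum + d.length = 2 * d.sum := by
    induction d with
    | nil => simp
    | cons x l ih =>
      simp only [List.map_cons, List.sum_cons, List.length_cons]
      have h := ih (fun y hy => hd y (by simp [hy]))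
      obtain ⟨h1, h3⟩ := hd x (by simp)
      have : a x + 1 = 2 * x := by
        interval_cases x
        · rw [a_one]
        · rw [a_two]
        · rw [a_three]
      omega
  have h2 : (u.map a).sum = u.sum := by
    induction u with
    | nil => simp
    | cons x l ih =>
      simp only [List.map_cons, List.sum_cons]
      rw [ih (fun y hy => hu y (by simp [hy]))]
      have h3 := hu x (by simp)
      have : a x = x := by
        interval_cases x
        · rw [a_zero]
        · rw [a_one]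
      rw [this]
  omega

/-- The halving lemma. -/
theorem key (p : ℕ) (hp : 1 ≤ p) : ∀ d u : List ℕ, (∀ x ∈ d, p ≤ x ∧ x ≤ 2 * p + 1) →
    (∀ x ∈ u, x ≤ p) → 6 ≤ d.length →
    (d.map a).sum + 2 * (u.map a).sum + d.length * a p ≤ 2 * nn (d.sum + u.sum) + 6 * a p := by
  induction p using Nat.strong_induction_on with
  | _ p ih =>
    intro d u hd hu h6
    rcases Nat.lt_or_ge 1 p with h2 | h2
    · have hd1 : ∀ x ∈ d.map (· / 2), p / 2 ≤ x ∧ x ≤ 2 * (p / 2) + 1 := by
        intro x hx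
        obtain ⟨y, hy, rfl⟩ := List.mem_map.1 hx
        have := hd y hy
        constructor
        · show p / 2 ≤ y / 2
          omega
        · show y / 2 ≤ _
          omega
      have hd2 : ∀ x ∈ d.map (fun x => (x + 1) / 2), (p + 1) / 2 ≤ x ∧ x ≤ 2 * ((p + 1) / 2) + 1 := by
        intro x hx
        obtain ⟨y, hy, rfl⟩ := List.mem_map.1 hx
        have := hd y hy
        constructor
        · show (p + 1) / 2 ≤ (y + 1) / 2
          omega
        · show (y + 1) / 2 ≤ _
          omega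
      have hu1 : ∀ x ∈ u.map (· / 2), x ≤ p / 2 := by
        intro x hx
        obtain ⟨y, hy, rfl⟩ := List.mem_map.1 hx
        have := hu y hy
        show y / 2 ≤ p / 2
        omega
      have hu2 : ∀ x ∈ u.map (fun x => (x + 1) / 2), x ≤ (p + 1) / 2 := by
        intro x hx
        obtain ⟨y, hy, rfl⟩ := List.mem_map.1 hx
        have := hu y hy
        show (y + 1) / 2 ≤ (p + 1) / 2
        omega
      have k1 := ih (p / 2) (by omega) (by omega) _ _ hd1 hu1 (by simpa using h6)
      have k2 := ih ((p + 1) / 2) (by omega) (by omega) _ _ hd2 hu2 (by simpa using h6)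
      rw [List.length_map] at k1 k2
      have e1 := sum_halve d
      have e2 := sum_halve u
      have e3 := a_halve p
      have s1 := sum_split d
      have s2 := sum_split u
      have t1 := sum_le_split d
      have t2 := sum_le_split u
      have l1 := length_le_sum _ _ (fun x hx => (hd1 x hx).1)
      rw [List.length_map] at l1
      have l2 : 6 ≤ (d.map (· / 2)).sum := by
        have : 1 ≤ p / 2 := by omega
        nlinarith
      have hs := nn_add ((d.map (· / 2)).sum + (u.map (· / 2)).sum)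
        ((d.map (fun x => (x + 1) / 2)).sum + (u.map (fun x => (x + 1) / 2)).sum)
        (by omega) (by omega)
      have e4 : (d.map (· / 2)).sum + (u.map (· / 2)).sum +
        ((d.map (fun x => (x + 1) / 2)).sum + (u.map (fun x => (x + 1) / 2)).sum) =
          d.sum + u.sum := by omega
      rw [e4] at hs
      have e5 : d.length * a p = 2 * (d.length * a (p / 2)) + d.length * a ((p + 1) / 2) := by
        rw [e3]; ring
      rw [e5, e3]
      rw [e1, e2]
      omega
    · have hp1 : p = 1 := by omega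
      subst hp1
      have := key_base d u (fun x hx => by have := hd x hx; omega) hu
      rw [a_one, mul_one]
      have hn := nn_ge (d.sum + u.sum)
      omega

theorem Rep.add {p c c' l l' k k' : ℕ} (h : Rep p c l k) (h' : Rep p c' l' k') :
    Rep p (c + c') (l + l') (k + k') := by
  obtain ⟨d, u, h1, h2, h3, h4, h5⟩ := h
  obtain ⟨d', u', g1, g2, g3, g4, g5⟩ := h'
  refine ⟨d ++ d', u ++ u', ?_, ?_, ?_, ?_, ?_⟩
  · intro x hx
    rcases List.mem_append.1 hx with hx | hx
    · exact h1 x hx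
    · exact g1 x hx
  · intro x hx
    rcases List.mem_append.1 hx with hx | hx
    · exact h2 x hx
    · exact g2 x hx
  · rw [List.length_append]; omega
  · rw [List.sum_append, List.sum_append]; omega
  · rw [List.map_append, List.map_append, List.sum_append, List.sum_append, List.length_append,
      add_mul, add_mul]
    omega

/-- adding a used part of value `u ≤ p` and an unused part -/
theorem Rep.add_small {p c l k u k₁ k₂ : ℕ} (h : Rep p c l k) (hu : u ≤ p) (h1 : k₁ ≤ a u)
    (h2 : k₂ ≤ a u) : Rep p c (l + u) (k + k₁ + k₂) := by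
  obtain ⟨d, v, g1, g2, g3, g4, g5⟩ := h
  refine ⟨d, u :: v, g1, ?_, g3, ?_, ?_⟩
  · intro x hx
    rcases List.mem_cons.1 hx with rfl | hx
    · exact hu
    · exact g2 x hx
  · rw [List.sum_cons]; omega
  · rw [List.map_cons, List.sum_cons]; omega

/-- an unused part of value at most `p` -/
theorem Rep.unused {p c l k k' : ℕ} (h : Rep p (c + 1) l k) (h1 : k' ≤ a p) :
    Rep p c l (k + k') := by
  obtain ⟨d, v, g1, g2, g3, g4, g5⟩ := h
  refine ⟨d, v, g1, g2, by omega, g4, ?_⟩
  rw [add_mul, one_mul] at g5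
  omega

theorem Rep.single {p l k : ℕ} (h1 : p ≤ l) (h2 : l ≤ 2 * p + 1) (h : k ≤ a l) : Rep p 1 l k := by
  refine ⟨[l], [], ?_, by simp, by simp, by simp, ?_⟩
  · intro x hx
    rw [List.mem_singleton] at hx
    subst hx
    exact ⟨h1, h2⟩
  · simpa using h

theorem Rep.final {p l k : ℕ} (hp : 1 ≤ p) (h : Rep p 6 l k) : k ≤ 2 * nn l := by
  obtain ⟨d, u, g1, g2, g3, g4, g5⟩ := h
  have := key p hp d u g1 g2 g3
  rw [g4] at this
  omega

/-- the through value of a node, sorted case -/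
theorem Rep.node_sorted {p w₁ w₂ w₃ k₁ k₂ k₃ : ℕ} (h12 : w₂ ≤ w₁) (h23 : w₃ ≤ w₂) (h3 : w₃ ≤ p)
    (hw : p ≤ w₁ + w₂) (a1 : k₁ ≤ a w₁) (a2 : k₂ ≤ a w₂) (a3 : k₃ ≤ a w₃)
    (r1 : p ≤ w₁ → Rep p 1 w₁ k₁) (r2 : p ≤ w₂ → Rep p 1 w₂ k₂) :
    Rep p 1 (w₁ + w₂) (k₁ + k₂ + k₃) := by
  rcases Nat.lt_or_ge w₂ p with h | h
  · rcases Nat.lt_or_ge w₁ p with h' | h'
    · refine Rep.single hw (by omega) ?_
      have := a_add w₁ w₂ h12
      have := a_mono h23
      omega
    · exact (r1 h').add_small h.le a2 (a3.trans (a_mono h23))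
  · exact ((r1 (by omega)).add (r2 h)).unused (a3.trans (a_mono h3))

/-- the through value of a node -/
theorem Rep.node {p w₁ w₂ w₃ k₁ k₂ k₃ : ℕ} (h3 : min w₁ (min w₂ w₃) ≤ p)
    (hw : p ≤ max (w₁ + w₂) (max (w₁ + w₃) (w₂ + w₃))) (a1 : k₁ ≤ a w₁) (a2 : k₂ ≤ a w₂)
    (a3 : k₃ ≤ a w₃) (r1 : p ≤ w₁ → Rep p 1 w₁ k₁) (r2 : p ≤ w₂ → Rep p 1 w₂ k₂)
    (r3 : p ≤ w₃ → Rep p 1 w₃ k₃) :
    Rep p 1 (max (w₁ + w₂) (max (w₁ + w₃) (w₂ + w₃))) (k₁ + k₂ + k₃) := by
  rcases le_total w₁ w₂ with h12 | h12 <;> rcases le_total w₁ w₃ with h13 | h13 <;>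
    rcases le_total w₂ w₃ with h23 | h23
  · -- w₁ ≤ w₂ ≤ w₃
    have e : max (w₁ + w₂) (max (w₁ + w₃) (w₂ + w₃)) = w₃ + w₂ := by omega
    have e' : k₁ + k₂ + k₃ = k₃ + k₂ + k₁ := by ring
    rw [e] at hw ⊢
    rw [e']
    exact Rep.node_sorted h23 h12 (by omega) hw a3 a2 a1 r3 r2
  · have e : max (w₁ + w₂) (max (w₁ + w₃) (w₂ + w₃)) = w₂ + w₃ := by omega
    have e' : k₁ + k₂ + k₃ = k₂ + k₃ + k₁ := by ring
    rw [e] at hw ⊢
    rw [e']
    exact Rep.node_sorted h23 h13 (by omega) hw a2 a3 a1 r2 r3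
  · have e : max (w₁ + w₂) (max (w₁ + w₃) (w₂ + w₃)) = w₃ + w₂ := by omega
    have e' : k₁ + k₂ + k₃ = k₃ + k₂ + k₁ := by ring
    rw [e] at hw ⊢
    rw [e']
    exact Rep.node_sorted h23 h12 (by omega) hw a3 a2 a1 r3 r2
  · have e : max (w₁ + w₂) (max (w₁ + w₃) (w₂ + w₃)) = w₂ + w₁ := by omega
    have e' : k₁ + k₂ + k₃ = k₂ + k₁ + k₃ := by ring
    rw [e] at hw ⊢
    rw [e']
    exact Rep.node_sorted h12 h13 (by omega) hw a2 a1 a3 r2 r1
  · have e : max (w₁ + w₂) (max (w₁ + w₃) (w₂ + w₃)) = w₃ + w₁ := by omega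
    have e' : k₁ + k₂ + k₃ = k₃ + k₁ + k₂ := by ring
    rw [e] at hw ⊢
    rw [e']
    exact Rep.node_sorted h13 h12 (by omega) hw a3 a1 a2 r3 r1
  · have e : max (w₁ + w₂) (max (w₁ + w₃) (w₂ + w₃)) = w₁ + w₂ := by omega
    rw [e] at hw ⊢
    exact Rep.node_sorted h12 h23 (by omega) hw a1 a2 a3 r1 r2
  · have e : max (w₁ + w₂) (max (w₁ + w₃) (w₂ + w₃)) = w₁ + w₃ := by omega
    have e' : k₁ + k₂ + k₃ = k₁ + k₃ + k₂ := by ring
    rw [e] at hw ⊢
    rw [e']
    exact Rep.node_sorted h13 h23 (by omega) hw a1 a3 a2 r1 r3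
  · have e : max (w₁ + w₂) (max (w₁ + w₃) (w₂ + w₃)) = w₁ + w₂ := by omega
    rw [e] at hw ⊢
    exact Rep.node_sorted h12 h23 (by omega) hw a1 a2 a3 r1 r2

end Pool.Agent.Lib.H42M
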