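import Pool.Agent.Lib.H42M.B02
import Pool.Agent.Lib.H28P.G05
import Pool.Agent.Lib.H28P.G06

/-!
# C01: gadgets with values
-/

set_option autoImplicit false

namespace Pool.Agent.Lib.H42M

open Pool.Agent.Lib.H28P

variable {V : Type*} [DecidableEq V] {G : SimpleGraph V}

theorem GW.toGad {x y z : V} {S : Finset V} {w m : ℕ} (h : GW G x y z S w m) :
    ∃ L, Gad G x y z S L := by
  induction h with
  | leaf x y z hxy hyz hxz => exact ⟨_, Gad.leaf x y z hxy hyz hxz⟩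
  | node x y z c S₁ S₂ S₃ w₁ w₂ w₃ m₁ m₂ m₃ h₁ h₂ h₃ hx hy hz h12 h13 h23 ih₁ ih₂ ih₃ =>
    obtain ⟨L₁, g₁⟩ := ih₁
    obtain ⟨L₂, g₂⟩ := ih₂
    obtain ⟨L₃, g₃⟩ := ih₃
    exact ⟨_, Gad.node x y z c S₁ S₂ S₃ L₁ L₂ L₃ g₁ g₂ g₃ hx hy hz h12 h13 h23⟩

theorem GW.ofGad {x y z : V} {S : Finset V} {L : Finset (Finset V)} (h : Gad G x y z S L) :
    ∃ w m, GW G x y z S w m := by
  induction h with
  | leaf x y z hxy hyz hxz => exact ⟨_, _, GW.leaf x y z hxy hyz hxz⟩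
  | node x y z c S₁ S₂ S₃ L₁ L₂ L₃ h₁ h₂ h₃ hx hy hz h12 h13 h23 ih₁ ih₂ ih₃ =>
    obtain ⟨w₁, m₁, g₁⟩ := ih₁
    obtain ⟨w₂, m₂, g₂⟩ := ih₂
    obtain ⟨w₃, m₃, g₃⟩ := ih₃
    exact ⟨_, _, GW.node x y z c S₁ S₂ S₃ _ _ _ _ _ _ g₁ g₂ g₃ hx hy hz h12 h13 h23⟩

theorem GW.adj {x y z : V} {S : Finset V} {w m : ℕ} (h : GW G x y z S w m) :
    G.Adj x y ∧ G.Adj y z ∧ G.Adj x z := by
  obtain ⟨L, g⟩ := h.toGad
  exact g.adj

theorem GW.notMem {x y z : V} {S : Finset V} {w m : ℕ} (h : GW G x y z S w m) :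
    x ∉ S ∧ y ∉ S ∧ z ∉ S := by
  obtain ⟨L, g⟩ := h.toGad
  exact g.notMem

theorem GW.swap12 {x y z : V} {S : Finset V} {w m : ℕ} (h : GW G x y z S w m) :
    GW G y x z S w m := by
  induction h with
  | leaf x y z hxy hyz hxz => exact GW.leaf y x z hxy.symm hxz hyz
  | node x y z c S₁ S₂ S₃ w₁ w₂ w₃ m₁ m₂ m₃ h₁ h₂ h₃ hx hy hz h12 h13 h23 ih₁ ih₂ ih₃ =>
    have g := GW.node y x z c S₂ S₁ S₃ w₂ w₁ w₃ m₂ m₁ m₃ ih₂ ih₁ ih₃ hy hx hz h12.symm h23 h13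
    have e1 : S₂ ∪ S₁ ∪ S₃ = S₁ ∪ S₂ ∪ S₃ := by rw [Finset.union_comm S₂ S₁]
    have e2 : max (w₂ + w₁) (max (w₂ + w₃) (w₁ + w₃)) =
      max (w₁ + w₂) (max (w₁ + w₃) (w₂ + w₃)) := by omega
    have e3 : max (min w₂ (min w₁ w₃)) (max m₂ (max m₁ m₃)) =
      max (min w₁ (min w₂ w₃)) (max m₁ (max m₂ m₃)) := by omega
    rw [e1, e2, e3] at g
    exact g

theorem GW.swap23 {x y z : V} {S : Finset V} {w m : ℕ} (h : GW G x y z S w m) :
    GW G x z y S w m := by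
  induction h with
  | leaf x y z hxy hyz hxz => exact GW.leaf x z y hxz hyz.symm hxy
  | node x y z c S₁ S₂ S₃ w₁ w₂ w₃ m₁ m₂ m₃ h₁ h₂ h₃ hx hy hz h12 h13 h23 ih₁ ih₂ ih₃ =>
    have g := GW.node x z y c S₁ S₃ S₂ w₁ w₃ w₂ m₁ m₃ m₂ ih₁ ih₃ ih₂ hx hz hy h13 h12 h23.symm
    have e1 : S₁ ∪ S₃ ∪ S₂ = S₁ ∪ S₂ ∪ S₃ := by
      rw [Finset.union_assoc, Finset.union_comm S₃ S₂, ← Finset.union_assoc]
    have e2 : max (w₁ + w₃) (max (w₁ + w₂) (w₃ + w₂)) =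
      max (w₁ + w₂) (max (w₁ + w₃) (w₂ + w₃)) := by omega
    have e3 : max (min w₁ (min w₃ w₂)) (max m₁ (max m₃ m₂)) =
      max (min w₁ (min w₂ w₃)) (max m₁ (max m₂ m₃)) := by omega
    rw [e1, e2, e3] at g
    exact g

/-- rotation of the corners -/
theorem GW.rot {x y z : V} {S : Finset V} {w m : ℕ} (h : GW G x y z S w m) :
    GW G y z x S w m := h.swap12.swap23

theorem GW.rot' {x y z : V} {S : Finset V} {w m : ℕ} (h : GW G x y z S w m) :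
    GW G z x y S w m := h.swap23.swap12

theorem GW.swap13 {x y z : V} {S : Finset V} {w m : ℕ} (h : GW G x y z S w m) :
    GW G z y x S w m := h.rot.swap12

theorem GW.one_le {x y z : V} {S : Finset V} {w m : ℕ} (h : GW G x y z S w m) : 1 ≤ w := by
  induction h with
  | leaf x y z hxy hyz hxz => exact le_rfl
  | node x y z c S₁ S₂ S₃ w₁ w₂ w₃ m₁ m₂ m₃ h₁ h₂ h₃ hx hy hz h12 h13 h23 ih₁ ih₂ ih₃ => omega

theorem GW.two_mul_le {x y z : V} {S : Finset V} {w m : ℕ} (h : GW G x y z S w m) :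
    2 * m ≤ w := by
  induction h with
  | leaf x y z hxy hyz hxz => omega
  | node x y z c S₁ S₂ S₃ w₁ w₂ w₃ m₁ m₂ m₃ h₁ h₂ h₃ hx hy hz h12 h13 h23 ih₁ ih₂ ih₃ =>
    have := h₁.one_le
    have := h₂.one_le
    have := h₃.one_le
    omega

theorem GW.card_node {c : V} {S₁ S₂ S₃ : Finset V} (h12 : Disjoint S₁ S₂) (h13 : Disjoint S₁ S₃)
    (h23 : Disjoint S₂ S₃) (h1 : c ∉ S₁) (h2 : c ∉ S₂) (h3 : c ∉ S₃) :
    2 * (insert c (S₁ ∪ S₂ ∪ S₃)).card + 1 =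
      (2 * S₁.card + 1) + (2 * S₂.card + 1) + (2 * S₃.card + 1) := by
  have hd : Disjoint (S₁ ∪ S₂) S₃ := Finset.disjoint_union_left.2 ⟨h13, h23⟩
  rw [Finset.card_insert_of_notMem (by simp [h1, h2, h3]), Finset.card_union_of_disjoint hd,
    Finset.card_union_of_disjoint h12]
  ring

theorem GW.le_a {x y z : V} {S : Finset V} {w m : ℕ} (h : GW G x y z S w m) :
    2 * S.card + 1 ≤ a w := by
  induction h with
  | leaf x y z hxy hyz hxz => simp [a_one]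
  | node x y z c S₁ S₂ S₃ w₁ w₂ w₃ m₁ m₂ m₃ h₁ h₂ h₃ hx hy hz h12 h13 h23 ih₁ ih₂ ih₃ =>
    rw [GW.card_node h12 h13 h23 h₁.notMem.1 h₂.notMem.2.1 h₃.notMem.2.2]
    have key : ∀ u v t : ℕ, t ≤ v → v ≤ u → a u + a v + a t ≤ a (u + v) := by
      intro u v t h1 h2
      have := a_add u v h2
      have := a_mono h1
      omega
    rcases le_total w₁ w₂ with h12' | h12' <;> rcases le_total w₁ w₃ with h13' | h13' <;>
      rcases le_total w₂ w₃ with h23' | h23'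
    · have := key w₃ w₂ w₁ h12' h23'
      have := a_mono (show w₃ + w₂ ≤ max (w₁ + w₂) (max (w₁ + w₃) (w₂ + w₃)) by omega)
      omega
    · have := key w₂ w₃ w₁ h13' h23'
      have := a_mono (show w₂ + w₃ ≤ max (w₁ + w₂) (max (w₁ + w₃) (w₂ + w₃)) by omega)
      omega
    · have := key w₃ w₂ w₁ h12' h23'
      have := a_mono (show w₃ + w₂ ≤ max (w₁ + w₂) (max (w₁ + w₃) (w₂ + w₃)) by omega)
      omega
    · have := key w₂ w₁ w₃ h13' h12'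
      have := a_mono (show w₂ + w₁ ≤ max (w₁ + w₂) (max (w₁ + w₃) (w₂ + w₃)) by omega)
      omega
    · have := key w₃ w₁ w₂ h12' h13'
      have := a_mono (show w₃ + w₁ ≤ max (w₁ + w₂) (max (w₁ + w₃) (w₂ + w₃)) by omega)
      omega
    · have := key w₁ w₂ w₃ h23' h12'
      have := a_mono (show w₁ + w₂ ≤ max (w₁ + w₂) (max (w₁ + w₃) (w₂ + w₃)) by omega)
      omega
    · have := key w₁ w₃ w₂ h23' h13'
      have := a_mono (show w₁ + w₃ ≤ max (w₁ + w₂) (max (w₁ + w₃) (w₂ + w₃)) by omega)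
      omega
    · have := key w₁ w₂ w₃ h23' h12'
      have := a_mono (show w₁ + w₂ ≤ max (w₁ + w₂) (max (w₁ + w₃) (w₂ + w₃)) by omega)
      omega

/-- the value `w` is realised by paths -/
theorem GW.exists_prof {x y z : V} {S : Finset V} {w m : ℕ} (h : GW G x y z S w m) :
    ∃ X, Prof G x y z S w X := by
  induction h with
  | leaf x y z hxy hyz hxz => exact ⟨2, Prof.leaf hxy hyz hxz⟩
  | node x y z c S₁ S₂ S₃ w₁ w₂ w₃ m₁ m₂ m₃ h₁ h₂ h₃ hx hy hz h12 h13 h23 ih₁ ih₂ ih₃ =>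
    obtain ⟨X₁, p₁⟩ := ih₁
    obtain ⟨X₂, p₂⟩ := ih₂
    obtain ⟨X₃, p₃⟩ := ih₃
    exact ⟨_, Prof.node p₁ p₂ p₃ h12 h13 h23 h₁.notMem.1 h₂.notMem.2.1 h₃.notMem.2.2⟩

theorem prof_mono {x y z : V} {S : Finset V} {w X X' : ℕ} (h : Prof G x y z S w X)
    (hX : X' ≤ X) : Prof G x y z S w X' := by
  obtain ⟨h1, a1, a2, a3, a4, a5, a6⟩ := h
  exact ⟨h1, a1.mono (Finset.Subset.refl _) hX, a2.mono (Finset.Subset.refl _) hX,
    a3.mono (Finset.Subset.refl _) hX, a4.mono (Finset.Subset.refl _) hX,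
    a5.mono (Finset.Subset.refl _) hX, a6.mono (Finset.Subset.refl _) hX⟩

theorem GW.thr {x y z : V} {S : Finset V} {w m : ℕ} (h : GW G x y z S w m) :
    Thr G S x y w := by
  obtain ⟨X, p⟩ := h.exists_prof
  exact p.1.1

/-- a used gadget of value at least `p`, with all inner numbers at most `p` -/
theorem GW.rep {x y z : V} {S : Finset V} {w m : ℕ} (h : GW G x y z S w m) {p : ℕ} (hp : 1 ≤ p)
    (hm : m ≤ p) (hw : p ≤ w) : Rep p 1 w (2 * S.card + 1) := by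
  induction h with
  | leaf x y z hxy hyz hxz =>
    exact Rep.single hw (by omega) (by simp [a_one])
  | node x y z c S₁ S₂ S₃ w₁ w₂ w₃ m₁ m₂ m₃ h₁ h₂ h₃ hx hy hz h12 h13 h23 ih₁ ih₂ ih₃ =>
    rw [GW.card_node h12 h13 h23 h₁.notMem.1 h₂.notMem.2.1 h₃.notMem.2.2]
    exact Rep.node (by omega) hw h₁.le_a h₂.le_a h₃.le_a (fun h => ih₁ (by omega) h)
      (fun h => ih₂ (by omega) h) (fun h => ih₃ (by omega) h)

end Pool.Agent.Lib.H42M
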