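import Pool.Agent.Lib.H42M.C01

/-!
# C02: the two-path flow to the inner vertex with the largest minimum
-/

set_option autoImplicit false

namespace Pool.Agent.Lib.H42M

open Pool.Agent.Lib.H28P

variable {V : Type*} [DecidableEq V] {G : SimpleGraph V}

theorem Rep.flow_aux {p Y w₁ u v k₁ ku kv : ℕ} (hp : 1 ≤ p) (h : Rep p 3 Y k₁) (h1 : 2 * p ≤ w₁)
    (hmin : min w₁ (min u v) ≤ p) (huv : v ≤ u) (au : ku ≤ a u) (av : kv ≤ a v)
    (ru : p ≤ u → Rep p 1 u ku) : Rep p 3 (Y + u) (k₁ + ku + kv) := by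
  have hv : v ≤ p := by omega
  rcases Nat.lt_or_ge u p with hu | hu
  · exact h.add_small hu.le au (av.trans (a_mono huv))
  · exact (h.add (ru hu)).unused (av.trans (a_mono hv))

theorem Rep.flow {p Y w₁ w₂ w₃ k₁ k₂ k₃ : ℕ} (hp : 1 ≤ p) (h : Rep p 3 Y k₁) (h1 : 2 * p ≤ w₁)
    (hmin : min w₁ (min w₂ w₃) ≤ p) (a2 : k₂ ≤ a w₂) (a3 : k₃ ≤ a w₃)
    (r2 : p ≤ w₂ → Rep p 1 w₂ k₂) (r3 : p ≤ w₃ → Rep p 1 w₃ k₃) :
    Rep p 3 (Y + max w₂ w₃) (k₁ + k₂ + k₃) := by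
  rcases le_total w₃ w₂ with h' | h'
  · rw [max_eq_left h']
    exact Rep.flow_aux hp h h1 hmin h' a2 a3 r2
  · rw [max_eq_right h']
    have := Rep.flow_aux hp h h1 (by omega) h' a3 a2 r3
    have e : k₁ + k₂ + k₃ = k₁ + k₃ + k₂ := by ring
    rw [e]
    exact this

theorem GW.flow {x y z : V} {S : Finset V} {w m : ℕ} (h : GW G x y z S w m) (hm : 1 ≤ m) :
    ∃ Y, Prof G x y z S w Y ∧ Rep m 3 Y (2 * S.card + 1) := by
  induction h with
  | leaf x y z hxy hyz hxz => omega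
  | node x y z c S₁ S₂ S₃ w₁ w₂ w₃ m₁ m₂ m₃ h₁ h₂ h₃ hx hy hz h12 h13 h23 ih₁ ih₂ ih₃ =>
    set m := max (min w₁ (min w₂ w₃)) (max m₁ (max m₂ m₃)) with hmdef
    have n1 := h₁.notMem.1
    have n2 := h₂.notMem.2.1
    have n3 := h₃.notMem.2.2
    rw [GW.card_node h12 h13 h23 n1 n2 n3]
    obtain ⟨X₁, p₁⟩ := h₁.exists_prof
    obtain ⟨X₂, p₂⟩ := h₂.exists_prof
    obtain ⟨X₃, p₃⟩ := h₃.exists_prof
    have r1 : m ≤ w₁ → Rep m 1 w₁ (2 * S₁.card + 1) := fun h => h₁.rep hm (by omega) h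
    have r2 : m ≤ w₂ → Rep m 1 w₂ (2 * S₂.card + 1) := fun h => h₂.rep hm (by omega) h
    have r3 : m ≤ w₃ → Rep m 1 w₃ (2 * S₃.card + 1) := fun h => h₃.rep hm (by omega) h
    have hcase : m = min w₁ (min w₂ w₃) ∨ m = m₁ ∨ m = m₂ ∨ m = m₃ := by omega
    rcases hcase with hc | hc | hc | hc
    · refine ⟨w₁ + w₂ + w₃, prof_mono (Prof.node p₁ p₂ p₃ h12 h13 h23 n1 n2 n3) (by omega), ?_⟩
      exact ((r1 (by omega)).add (r2 (by omega))).add (r3 (by omega))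
    · obtain ⟨Y, q, r⟩ := ih₁ (by omega)
      refine ⟨Y + max w₂ w₃, prof_mono (Prof.node q p₂ p₃ h12 h13 h23 n1 n2 n3) (by omega), ?_⟩
      have hw := h₁.two_mul_le
      rw [← hc] at r hw
      exact Rep.flow hm r hw (by omega) h₂.le_a h₃.le_a r2 r3
    · obtain ⟨Y, q, r⟩ := ih₂ (by omega)
      refine ⟨Y + max w₁ w₃, prof_mono (Prof.node p₁ q p₃ h12 h13 h23 n1 n2 n3) (by omega), ?_⟩
      have hw := h₂.two_mul_le
      rw [← hc] at r hw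
      have := Rep.flow hm r hw (w₂ := w₁) (w₃ := w₃) (by omega) h₁.le_a h₃.le_a r1 r3
      have e : 2 * S₂.card + 1 + (2 * S₁.card + 1) + (2 * S₃.card + 1) =
        2 * S₁.card + 1 + (2 * S₂.card + 1) + (2 * S₃.card + 1) := by ring
      rw [e] at this
      exact this
    · obtain ⟨Y, q, r⟩ := ih₃ (by omega)
      refine ⟨Y + max w₁ w₂, prof_mono (Prof.node p₁ p₂ q h12 h13 h23 n1 n2 n3) (by omega), ?_⟩
      have hw := h₃.two_mul_le
      rw [← hc] at r hw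
      have := Rep.flow hm r hw (w₂ := w₁) (w₃ := w₂) (by omega) h₁.le_a h₂.le_a r1 r2
      have e : 2 * S₃.card + 1 + (2 * S₁.card + 1) + (2 * S₂.card + 1) =
        2 * S₁.card + 1 + (2 * S₂.card + 1) + (2 * S₃.card + 1) := by ring
      rw [e] at this
      exact this

end Pool.Agent.Lib.H42M
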