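import Pool.Agent.Lib.H42M.C02

/-!
# C03: the choice of the root
-/

set_option autoImplicit false

namespace Pool.Agent.Lib.H42M

open Pool.Agent.Lib.H28P

variable {V : Type*} [DecidableEq V] {G : SimpleGraph V} {T : Finset V} {x y z c : V}
  {A B C D : Finset V} {wA wB wC wD mA mB mC mD : ℕ}

theorem Tet.swapC (t : Tet G T x y z c A B C D wA wB wC wD mA mB mC mD) :
    Tet G T x y c z A B D C wA wB wD wC mA mB mD mC where
  hA := t.hA.swap23
  hB := t.hB.swap23
  hC := t.hD
  hD := t.hC
  dAB := t.dAB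
  dAC := t.dAD
  dAD := t.dAC
  dBC := t.dBD
  dBD := t.dBC
  dCD := t.dCD.symm
  nx := t.nx
  ny := t.ny
  nz := t.nc
  nc := t.nz
  hT := by
    rw [t.hT]
    ext v
    simp only [Finset.mem_union, Finset.mem_insert, Finset.mem_singleton]
    tauto

theorem Tet.swapB (t : Tet G T x y z c A B C D wA wB wC wD mA mB mC mD) :
    Tet G T x c z y A D C B wA wD wC wB mA mD mC mB where
  hA := t.hA.swap13
  hB := t.hD.swap23
  hC := t.hC.swap23
  hD := t.hB.swap23
  dAB := t.dAD
  dAC := t.dAC
  dAD := t.dAB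
  dBC := t.dCD.symm
  dBD := t.dBD.symm
  dCD := t.dBC.symm
  nx := t.nx
  ny := t.nc
  nz := t.nz
  nc := t.ny
  hT := by
    rw [t.hT]
    ext v
    simp only [Finset.mem_union, Finset.mem_insert, Finset.mem_singleton]
    tauto

theorem Tet.swapA (t : Tet G T x y z c A B C D wA wB wC wD mA mB mC mD) :
    Tet G T c y z x D B C A wD wB wC wA mD mB mC mA where
  hA := t.hD.rot
  hB := t.hB.swap13
  hC := t.hC.swap13
  hD := t.hA.rot'
  dAB := t.dBD.symm
  dAC := t.dCD.symm
  dAD := t.dAD.symm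
  dBC := t.dBC
  dBD := t.dAB.symm
  dCD := t.dAC.symm
  nx := t.nc
  ny := t.ny
  nz := t.nz
  nc := t.nx
  hT := by
    rw [t.hT]
    ext v
    simp only [Finset.mem_union, Finset.mem_insert, Finset.mem_singleton]
    tauto

/-- some root has all four values at least `t` -/
def Good (G : SimpleGraph V) (T : Finset V) (t : ℕ) : Prop :=
  ∃ (x y z c : V) (A B C D : Finset V) (wA wB wC wD mA mB mC mD : ℕ),
    Tet G T x y z c A B C D wA wB wC wD mA mB mC mD ∧ t ≤ wA ∧ t ≤ wB ∧ t ≤ wC ∧ t ≤ wD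

theorem GW.w_le {S : Finset V} {w m : ℕ} (h : GW G x y z S w m) : w ≤ S.card + 1 := by
  obtain ⟨l, h1, h2, h3, h4⟩ := h.thr
  have h5 : l.toFinset ⊆ S := fun v hv => h2 v (List.mem_toFinset.1 hv)
  have h6 := Finset.card_le_card h5
  rw [List.toFinset_card_of_nodup h1] at h6
  omega

theorem Good.le {t : ℕ} (h : Good G T t) : t ≤ T.card + 1 := by
  obtain ⟨x, y, z, c, A, B, C, D, wA, wB, wC, wD, mA, mB, mC, mD, tt, h1, h2, h3, h4⟩ := h
  have h5 := tt.hA.w_le
  have h6 : A ⊆ T := by
    rw [tt.hT]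
    intro v hv
    simp [hv]
  have := Finset.card_le_card h6
  omega

/-- moving the root to an inner vertex with three large parts -/
theorem reroot {S : Finset V} {w m : ℕ} (h : GW G x y z S w m) :
    ∀ (T O : Finset V) (wO mO t : ℕ), GW G x y z O wO mO → 1 ≤ t → t ≤ m → t ≤ wO →
      Disjoint O S → T = {x, y, z} ∪ (O ∪ S) → Good G T t := by
  induction h with
  | leaf x y z hxy hyz hxz =>
    intro T O wO mO t _ h1 h2
    omega
  | node x y z c S₁ S₂ S₃ w₁ w₂ w₃ m₁ m₂ m₃ h₁ h₂ h₃ hx hy hz h12 h13 h23 ih₁ ih₂ ih₃ =>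
    intro T O wO mO t hO h1 hm hw hd hT
    have hcO : c ∉ O := fun hc => (Finset.disjoint_left.1 hd) hc (Finset.mem_insert_self _ _)
    have d1 : Disjoint O S₁ := Finset.disjoint_of_subset_right (by intro v hv; simp [hv]) hd
    have d2 : Disjoint O S₂ := Finset.disjoint_of_subset_right (by intro v hv; simp [hv]) hd
    have d3 : Disjoint O S₃ := Finset.disjoint_of_subset_right (by intro v hv; simp [hv]) hd
    have hcase : t ≤ min w₁ (min w₂ w₃) ∨ t ≤ m₁ ∨ t ≤ m₂ ∨ t ≤ m₃ := by omega
    have n1 := h₁.notMem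
    have n2 := h₂.notMem
    have n3 := h₃.notMem
    have nO := hO.notMem
    rcases hcase with hc | hc | hc | hc
    · refine ⟨x, y, z, c, S₁, S₂, S₃, O, w₁, w₂, w₃, wO, m₁, m₂, m₃, mO, ?_, by omega, by omega,
        by omega, by omega⟩
      exact
        { hA := h₁.rot
          hB := h₂.swap23
          hC := h₃
          hD := hO
          dAB := h12
          dAC := h13
          dAD := d1.symm
          dBC := h23
          dBD := d2.symm
          dCD := d3.symm
          nx := hx
          ny := hy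
          nz := hz
          nc := hcO
          hT := by
            rw [hT]
            ext v
            simp only [Finset.mem_union, Finset.mem_insert, Finset.mem_singleton]
            tauto }
    · have g := GW.node c y z x O S₂ S₃ wO w₂ w₃ mO m₂ m₃ hO h₂.swap12 h₃.swap13 hcO hy hz d2 d3 h23
      refine ih₁ T _ _ _ t g h1 hc (by omega) ?_ ?_
      · rw [Finset.disjoint_left]
        intro v hv hv'
        simp only [Finset.mem_insert, Finset.mem_union] at hv
        rcases hv with rfl | (hv | hv) | hv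
        · exact hx hv'
        · exact (Finset.disjoint_left.1 d1) hv hv'
        · exact (Finset.disjoint_left.1 h12) hv' hv
        · exact (Finset.disjoint_left.1 h13) hv' hv
      · rw [hT]
        ext v
        simp only [Finset.mem_union, Finset.mem_insert, Finset.mem_singleton]
        tauto
    · have g := GW.node x c z y S₁ O S₃ w₁ wO w₃ m₁ mO m₃ h₁.swap12 hO h₃.swap23 hx hcO hz
        d1.symm h13 d3
      refine ih₂ T _ _ _ t g h1 hc (by omega) ?_ ?_
      · rw [Finset.disjoint_left]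
        intro v hv hv'
        simp only [Finset.mem_insert, Finset.mem_union] at hv
        rcases hv with rfl | (hv | hv) | hv
        · exact hy hv'
        · exact (Finset.disjoint_left.1 h12) hv hv'
        · exact (Finset.disjoint_left.1 d2) hv hv'
        · exact (Finset.disjoint_left.1 h23) hv' hv
      · rw [hT]
        ext v
        simp only [Finset.mem_union, Finset.mem_insert, Finset.mem_singleton]
        tauto
    · have g := GW.node x y c z S₁ S₂ O w₁ w₂ wO m₁ m₂ mO h₁.swap13 h₂.swap23 hO hx hy hcO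
        h12 d1.symm d2.symm
      refine ih₃ T _ _ _ t g h1 hc (by omega) ?_ ?_
      · rw [Finset.disjoint_left]
        intro v hv hv'
        simp only [Finset.mem_insert, Finset.mem_union] at hv
        rcases hv with rfl | (hv | hv) | hv
        · exact hz hv'
        · exact (Finset.disjoint_left.1 h13) hv hv'
        · exact (Finset.disjoint_left.1 h23) hv hv'
        · exact (Finset.disjoint_left.1 d3) hv hv'
      · rw [hT]
        ext v
        simp only [Finset.mem_union, Finset.mem_insert, Finset.mem_singleton]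
        tauto

/-- the outside of the triangle `x y z` -/
theorem Tet.outer (t : Tet G T x y z c A B C D wA wB wC wD mA mB mC mD) :
    GW G x y z (insert c (A ∪ B ∪ C)) (max (wA + wB) (max (wA + wC) (wB + wC)))
        (max (min wA (min wB wC)) (max mA (max mB mC))) ∧
      Disjoint (insert c (A ∪ B ∪ C)) D ∧ T = {x, y, z} ∪ (insert c (A ∪ B ∪ C) ∪ D) := by
  refine ⟨GW.node x y z c A B C _ _ _ _ _ _ t.hA.rot' t.hB.swap23 t.hC t.nx t.ny t.nz
    t.dAB t.dAC t.dBC, ?_, ?_⟩
  · rw [Finset.disjoint_left]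
    intro v hv hv'
    simp only [Finset.mem_insert, Finset.mem_union] at hv
    rcases hv with rfl | (hv | hv) | hv
    · exact t.nc hv'
    · exact (Finset.disjoint_left.1 t.dAD) hv hv'
    · exact (Finset.disjoint_left.1 t.dBD) hv hv'
    · exact (Finset.disjoint_left.1 t.dCD) hv hv'
  · rw [t.hT]
    ext v
    simp only [Finset.mem_union, Finset.mem_insert, Finset.mem_singleton]
    tauto

theorem Tet.mD_le {q : ℕ} (t : Tet G T x y z c A B C D wA wB wC wD mA mB mC mD) (hq : 1 ≤ q)
    (h1 : q ≤ wA) (h2 : q ≤ wB) (hno : ¬ Good G T (q + 1)) : mD ≤ q := by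
  by_contra hc
  obtain ⟨g, hd, hT⟩ := t.outer
  exact hno (reroot t.hD T _ _ _ (q + 1) g (by omega) (by omega) (by omega) hd hT)

/-- the good root -/
theorem exists_root (h : Good G T 1) :
    ∃ (x y z c : V) (A B C D : Finset V) (wA wB wC wD mA mB mC mD : ℕ),
      Tet G T x y z c A B C D wA wB wC wD mA mB mC mD ∧
        mA ≤ mD ∧ mB ≤ mD ∧ mC ≤ mD ∧ mD ≤ wA ∧ mD ≤ wB ∧ mD ≤ wC := by
  classical
  obtain ⟨q, hq1, hq, hno⟩ : ∃ q, 1 ≤ q ∧ Good G T q ∧ ¬ Good G T (q + 1) := by
    by_contra hcon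
    push Not at hcon
    have : ∀ n, 1 ≤ n → Good G T n := by
      intro n hn
      induction n, hn using Nat.le_induction with
      | base => exact h
      | succ n hn ih => exact hcon n hn ih
    have := (this (T.card + 2) (by omega)).le
    omega
  obtain ⟨x, y, z, c, A, B, C, D, wA, wB, wC, wD, mA, mB, mC, mD, t, h1, h2, h3, h4⟩ := hq
  have kD := t.mD_le hq1 h1 h2 hno
  have kC := t.swapC.mD_le hq1 h1 h2 hno
  have kB := t.swapB.mD_le hq1 h1 h4 hno
  have kA := t.swapA.mD_le hq1 h4 h2 hno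
  have hcase : (mA ≤ mD ∧ mB ≤ mD ∧ mC ≤ mD) ∨ (mA ≤ mC ∧ mB ≤ mC ∧ mD ≤ mC) ∨
      (mA ≤ mB ∧ mC ≤ mB ∧ mD ≤ mB) ∨ (mB ≤ mA ∧ mC ≤ mA ∧ mD ≤ mA) := by omega
  rcases hcase with ⟨c1, c2, c3⟩ | ⟨c1, c2, c3⟩ | ⟨c1, c2, c3⟩ | ⟨c1, c2, c3⟩
  · exact ⟨_, _, _, _, _, _, _, _, _, _, _, _, _, _, _, _, t, c1, c2, c3, by omega, by omega,
      by omega⟩
  · exact ⟨_, _, _, _, _, _, _, _, _, _, _, _, _, _, _, _, t.swapC, c1, c2, c3, by omega,
      by omega, by omega⟩
  · exact ⟨_, _, _, _, _, _, _, _, _, _, _, _, _, _, _, _, t.swapB, c1, c3, c2, by omega,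
      by omega, by omega⟩
  · exact ⟨_, _, _, _, _, _, _, _, _, _, _, _, _, _, _, _, t.swapA, c3, c1, c2, by omega,
      by omega, by omega⟩

end Pool.Agent.Lib.H42M
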