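import Pool.Agent.Lib.H28P.N01
import Pool.Agent.Lib.H28P.Poly

/-!
# H42M: the exact function for stacked polytopes (definitions)

`nn l + 2` will be the largest number of vertices of a stacked polytope all of whose simple edge
paths have at most `l - 1` vertices (`l ≥ 5`).
-/

set_option autoImplicit false

namespace Pool.Agent.Lib.H42M

open Pool.Agent.Lib.H28P

/-- `nn l = l - 3` for `l ≤ 11`, `nn (2 k) = 3 nn k` and `nn (2 k + 1) = 2 nn k + nn (k + 1)` for
`k ≥ 6`. -/
def nn (l : ℕ) : ℕ :=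
  if h : l < 12 then l - 3 else 2 * nn (l / 2) + nn ((l + 1) / 2)
termination_by l
decreasing_by all_goals omega

variable {V : Type*} [DecidableEq V]

/-- A triangulated triangle `x y z` inside the graph `G` with set `S` of inner vertices. The number
`w` is the through value (the sum of the two largest `w`'s of the three parts), `m` is the largest of
the numbers `min w₁ w₂ w₃` over all inner vertices (`0` if there is none). -/
inductive GW (G : SimpleGraph V) : V → V → V → Finset V → ℕ → ℕ → Prop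
  | leaf (x y z : V) (hxy : G.Adj x y) (hyz : G.Adj y z) (hxz : G.Adj x z) :
      GW G x y z ∅ 1 0
  | node (x y z c : V) (S₁ S₂ S₃ : Finset V) (w₁ w₂ w₃ m₁ m₂ m₃ : ℕ)
      (h₁ : GW G c y z S₁ w₁ m₁) (h₂ : GW G x c z S₂ w₂ m₂) (h₃ : GW G x y c S₃ w₃ m₃)
      (hx : x ∉ S₁) (hy : y ∉ S₂) (hz : z ∉ S₃)
      (h12 : Disjoint S₁ S₂) (h13 : Disjoint S₁ S₃) (h23 : Disjoint S₂ S₃) :
      GW G x y z (insert c (S₁ ∪ S₂ ∪ S₃)) (max (w₁ + w₂) (max (w₁ + w₃) (w₂ + w₃)))
        (max (min w₁ (min w₂ w₃)) (max m₁ (max m₂ m₃)))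

/-- A decomposition of the number `l` into at least `c` numbers `p ≤ d ≤ 2 p + 1` and numbers
`u ≤ p`, and the bound for `k` which belongs to it. -/
def Rep (p c l k : ℕ) : Prop :=
  ∃ d u : List ℕ, (∀ x ∈ d, p ≤ x ∧ x ≤ 2 * p + 1) ∧ (∀ x ∈ u, x ≤ p) ∧ c ≤ d.length ∧
    d.sum + u.sum = l ∧
    k + c * a p ≤ (d.map a).sum + 2 * (u.map a).sum + d.length * a p

/-- The sphere with vertex set `T` as a complete graph on `x, y, z, c` with a triangulated triangle in
each of the four triangles. -/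
structure Tet (G : SimpleGraph V) (T : Finset V) (x y z c : V) (A B C D : Finset V)
    (wA wB wC wD mA mB mC mD : ℕ) : Prop where
  hA : GW G y z c A wA mA
  hB : GW G x z c B wB mB
  hC : GW G x y c C wC mC
  hD : GW G x y z D wD mD
  dAB : Disjoint A B
  dAC : Disjoint A C
  dAD : Disjoint A D
  dBC : Disjoint B C
  dBD : Disjoint B D
  dCD : Disjoint C D
  nx : x ∉ A
  ny : y ∉ B
  nz : z ∉ C
  nc : c ∉ D
  hT : T = {x, y, z, c} ∪ (A ∪ B ∪ C ∪ D)

end Pool.Agent.Lib.H42M
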