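import Pool.Agent.Lib.H42M.B01
import Pool.Agent.Lib.H28P.U04

/-!
# E01: placing new vertices beyond several facets (explicitly), and paths of the new polytope
-/

set_option autoImplicit false

namespace Pool.Agent.Lib.H42M

open Pool.Agent.Lib.H28P

/-- the vertices after placing the new vertex `σ f` beyond each facet `f ∈ F₀` -/
def exV (V : Finset ℕ) (F₀ : Finset (Finset ℕ)) (σ : Finset ℕ → ℕ) : Finset ℕ :=
  V ∪ F₀.image σ

/-- the edges after placing the new vertex `σ f` beyond each facet `f ∈ F₀` -/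
def exE (E : Finset (Sym2 ℕ)) (F₀ : Finset (Finset ℕ)) (σ : Finset ℕ → ℕ) : Finset (Sym2 ℕ) :=
  E ∪ F₀.biUnion (fun f => f.image (fun u => s(σ f, u)))

/-- the facets after placing the new vertex `σ f` beyond each facet `f ∈ F₀` -/
def exF (F : Finset (Finset ℕ)) (F₀ : Finset (Finset ℕ)) (σ : Finset ℕ → ℕ) :
    Finset (Finset ℕ) :=
  (F \ F₀) ∪ F₀.biUnion (fun f => f.image (fun u => insert (σ f) (f.erase u)))

theorem mem_exE {E : Finset (Sym2 ℕ)} {F₀ : Finset (Finset ℕ)} {σ : Finset ℕ → ℕ} {e : Sym2 ℕ} :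
    e ∈ exE E F₀ σ ↔ e ∈ E ∨ ∃ f ∈ F₀, ∃ u ∈ f, s(σ f, u) = e := by
  simp [exE]

theorem mem_exV {V : Finset ℕ} {F₀ : Finset (Finset ℕ)} {σ : Finset ℕ → ℕ} {v : ℕ} :
    v ∈ exV V F₀ σ ↔ v ∈ V ∨ ∃ f ∈ F₀, σ f = v := by
  simp [exV]

theorem mem_exF {F : Finset (Finset ℕ)} {F₀ : Finset (Finset ℕ)} {σ : Finset ℕ → ℕ}
    {g : Finset ℕ} :
    g ∈ exF F F₀ σ ↔ (g ∈ F ∧ g ∉ F₀) ∨ ∃ f ∈ F₀, ∃ u ∈ f, insert (σ f) (f.erase u) = g := by
  simp [exF]

theorem Stacked.ext {V : Finset ℕ} {E : Finset (Sym2 ℕ)} {F : Finset (Finset ℕ)}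
    (h : Stacked V E F) (F₀ : Finset (Finset ℕ)) (hF : F₀ ⊆ F) (σ : Finset ℕ → ℕ)
    (hσ : ∀ f ∈ F₀, σ f ∉ V) (hi : Set.InjOn σ F₀) :
    Stacked (exV V F₀ σ) (exE E F₀ σ) (exF F F₀ σ) := by
  obtain ⟨-, -, hface, -⟩ := stacked_basic h
  induction F₀ using Finset.induction_on with
  | empty =>
    have e1 : exV V ∅ σ = V := by ext v; simp [mem_exV]
    have e2 : exE E ∅ σ = E := by ext v; simp [mem_exE]
    have e3 : exF F ∅ σ = F := by ext v; simp [mem_exF]
    rw [e1, e2, e3]
    exact h
  | insert f F₀ hf ih =>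
    have ih := ih ((Finset.subset_insert _ _).trans hF)
      (fun g hg => hσ g (Finset.mem_insert_of_mem hg))
      (hi.mono (by intro g hg; exact Finset.mem_insert_of_mem hg))
    have hfF : f ∈ F := hF (Finset.mem_insert_self _ _)
    obtain ⟨hf1, hf2, -⟩ := hface f hfF
    have hfF' : f ∈ exF F F₀ σ := mem_exF.2 (Or.inl ⟨hfF, hf⟩)
    obtain ⟨x, y, z, hxy, hxz, hyz, hxyz⟩ := Finset.card_eq_three.1 hf1
    have hv : σ f ∉ exV V F₀ σ := by
      rw [mem_exV]
      rintro (h1 | ⟨g, hg, hg'⟩)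
      · exact hσ f (Finset.mem_insert_self _ _) h1
      · have := hi (Finset.mem_coe.2 (Finset.mem_insert_of_mem hg))
          (Finset.mem_coe.2 (Finset.mem_insert_self f F₀)) hg'
        exact hf (this ▸ hg)
    have key := Stacked.stack _ _ _ x y z (σ f) ih (hxyz ▸ hfF') hv
    have e1 : exV V (insert f F₀) σ = insert (σ f) (exV V F₀ σ) := by
      ext v
      simp only [mem_exV, Finset.mem_insert]
      constructor
      · rintro (h1 | ⟨g, rfl | hg, rfl⟩)
        · exact Or.inr (Or.inl h1)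
        · exact Or.inl rfl
        · exact Or.inr (Or.inr ⟨g, hg, rfl⟩)
      · rintro (rfl | h1 | ⟨g, hg, rfl⟩)
        · exact Or.inr ⟨f, Or.inl rfl, rfl⟩
        · exact Or.inl h1
        · exact Or.inr ⟨g, Or.inr hg, rfl⟩
    have e2 : exE E (insert f F₀) σ = exE E F₀ σ ∪ {s(σ f, x), s(σ f, y), s(σ f, z)} := by
      ext e
      simp only [mem_exE, Finset.mem_insert, Finset.mem_union, Finset.mem_singleton]
      constructor
      · rintro (h1 | ⟨g, rfl | hg, u, hu, rfl⟩)
        · exact Or.inl (Or.inl h1)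
        · rw [hxyz] at hu
          simp only [Finset.mem_insert, Finset.mem_singleton] at hu
          rcases hu with rfl | rfl | rfl
          · exact Or.inr (Or.inl rfl)
          · exact Or.inr (Or.inr (Or.inl rfl))
          · exact Or.inr (Or.inr (Or.inr rfl))
        · exact Or.inl (Or.inr ⟨g, hg, u, hu, rfl⟩)
      · rintro ((h1 | ⟨g, hg, u, hu, rfl⟩) | rfl | rfl | rfl)
        · exact Or.inl h1
        · exact Or.inr ⟨g, Or.inr hg, u, hu, rfl⟩
        · exact Or.inr ⟨f, Or.inl rfl, x, by simp [hxyz], rfl⟩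
        · exact Or.inr ⟨f, Or.inl rfl, y, by simp [hxyz], rfl⟩
        · exact Or.inr ⟨f, Or.inl rfl, z, by simp [hxyz], rfl⟩
    have ex : f.erase x = {y, z} := by
      rw [hxyz]; ext t; simp only [Finset.mem_erase, Finset.mem_insert, Finset.mem_singleton]
      constructor
      · rintro ⟨h1, rfl | h2 | h2⟩
        · exact absurd rfl h1
        · exact Or.inl h2
        · exact Or.inr h2
      · rintro (rfl | rfl)
        · exact ⟨hxy.symm, Or.inr (Or.inl rfl)⟩
        · exact ⟨hxz.symm, Or.inr (Or.inr rfl)⟩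
    have ey : f.erase y = {x, z} := by
      rw [hxyz]; ext t; simp only [Finset.mem_erase, Finset.mem_insert, Finset.mem_singleton]
      constructor
      · rintro ⟨h1, h2 | rfl | h2⟩
        · exact Or.inl h2
        · exact absurd rfl h1
        · exact Or.inr h2
      · rintro (rfl | rfl)
        · exact ⟨hxy, Or.inl rfl⟩
        · exact ⟨hyz.symm, Or.inr (Or.inr rfl)⟩
    have ez : f.erase z = {x, y} := by
      rw [hxyz]; ext t; simp only [Finset.mem_erase, Finset.mem_insert, Finset.mem_singleton]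
      constructor
      · rintro ⟨h1, h2 | h2 | rfl⟩
        · exact Or.inl h2
        · exact Or.inr h2
        · exact absurd rfl h1
      · rintro (rfl | rfl)
        · exact ⟨hxz, Or.inl rfl⟩
        · exact ⟨hyz, Or.inr (Or.inl rfl)⟩
    have e3 : exF F (insert f F₀) σ = (exF F F₀ σ).erase {x, y, z} ∪
        {{σ f, y, z}, {σ f, x, z}, {σ f, x, y}} := by
      ext g
      simp only [mem_exF, Finset.mem_insert, Finset.mem_union, Finset.mem_singleton,
        Finset.mem_erase, not_or]
      rw [← hxyz, ← ex, ← ey, ← ez]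
      constructor
      · rintro (⟨h1, h2, h3⟩ | ⟨g', rfl | hg, u, hu, rfl⟩)
        · exact Or.inl ⟨h2, Or.inl ⟨h1, h3⟩⟩
        · right
          have hu' := hu
          rw [hxyz] at hu'
          simp only [Finset.mem_insert, Finset.mem_singleton] at hu'
          rcases hu' with rfl | rfl | rfl
          · exact Or.inl rfl
          · exact Or.inr (Or.inl rfl)
          · exact Or.inr (Or.inr rfl)
        · refine Or.inl ⟨?_, Or.inr ⟨g', hg, u, hu, rfl⟩⟩
          intro h1
          have h2 : σ g' ∈ f := by rw [← h1]; exact Finset.mem_insert_self _ _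
          exact hσ g' (Finset.mem_insert_of_mem hg) (hf2 h2)
      · rintro (⟨h1, ⟨h2, h3⟩ | ⟨g', hg, u, hu, rfl⟩⟩ | rfl | rfl | rfl)
        · exact Or.inl ⟨h2, h1, h3⟩
        · exact Or.inr ⟨g', Or.inr hg, u, hu, rfl⟩
        · exact Or.inr ⟨f, Or.inl rfl, x, by simp [hxyz], rfl⟩
        · exact Or.inr ⟨f, Or.inl rfl, y, by simp [hxyz], rfl⟩
        · exact Or.inr ⟨f, Or.inl rfl, z, by simp [hxyz], rfl⟩
    rw [e1, e2, e3]
    exact key

theorem card_exV {V : Finset ℕ} {F₀ : Finset (Finset ℕ)} {σ : Finset ℕ → ℕ}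
    (hσ : ∀ f ∈ F₀, σ f ∉ V) (hi : Set.InjOn σ F₀) : (exV V F₀ σ).card = V.card + F₀.card := by
  rw [exV, Finset.card_union_of_disjoint, Finset.card_image_of_injOn hi]
  rw [Finset.disjoint_right]
  intro v hv
  obtain ⟨f, hf, rfl⟩ := Finset.mem_image.1 hv
  exact hσ f hf

theorem exV_exV (V : Finset ℕ) (A B : Finset (Finset ℕ)) (τ : Finset ℕ → ℕ) :
    exV (exV V A τ) B τ = exV V (A ∪ B) τ := by
  simp [exV, Finset.image_union, Finset.union_assoc]

theorem exE_exE (E : Finset (Sym2 ℕ)) (A B : Finset (Finset ℕ)) (τ : Finset ℕ → ℕ) :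
    exE (exE E A τ) B τ = exE E (A ∪ B) τ := by
  simp [exE, Finset.union_biUnion, Finset.union_assoc]

/-- In the polytope with edge set `E'` each vertex outside `V` is placed beyond a facet of
`(V, E, F)`. -/
structure Over (V : Finset ℕ) (E : Finset (Sym2 ℕ)) (F : Finset (Finset ℕ))
    (E' : Finset (Sym2 ℕ)) : Prop where
  old : ∀ u v, u ∈ V → v ∈ V → s(u, v) ∈ E' → s(u, v) ∈ E
  new : ∀ v, v ∉ V → ∃ f ∈ F, ∀ u, s(v, u) ∈ E' → u ∈ f

theorem over_ex {V : Finset ℕ} {E : Finset (Sym2 ℕ)} {F : Finset (Finset ℕ)}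
    (h : Stacked V E F) (F₀ : Finset (Finset ℕ)) (hF : F₀ ⊆ F) (σ : Finset ℕ → ℕ)
    (hσ : ∀ f ∈ F₀, σ f ∉ V) (hi : Set.InjOn σ F₀) : Over V E F (exE E F₀ σ) := by
  obtain ⟨h4, hcF, hface, hedge⟩ := stacked_basic h
  constructor
  · intro u v hu hv huv
    rcases mem_exE.1 huv with h1 | ⟨f, hf, w, hw, h1⟩
    · exact h1
    · rcases Sym2.eq_iff.1 h1 with ⟨h2, -⟩ | ⟨h2, -⟩
      · exact absurd (h2 ▸ hu) (hσ f hf)
      · exact absurd (h2 ▸ hv) (hσ f hf)
  · intro v hv
    have key : ∀ u, s(v, u) ∈ exE E F₀ σ → ∃ f ∈ F₀, σ f = v ∧ u ∈ f := by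
      intro u hu
      rcases mem_exE.1 hu with h1 | ⟨f, hf, w, hw, h1⟩
      · exact absurd (hedge _ _ h1).1 hv
      · rcases Sym2.eq_iff.1 h1 with ⟨h2, h3⟩ | ⟨h2, h3⟩
        · exact ⟨f, hf, h2, h3 ▸ hw⟩
        · exact absurd (h3 ▸ (hface f (hF hf)).2.1 hw) hv
    by_cases hex : ∃ f ∈ F₀, σ f = v
    · obtain ⟨f, hf, rfl⟩ := hex
      refine ⟨f, hF hf, fun u hu => ?_⟩
      obtain ⟨g, hg, hg1, hg2⟩ := key u hu
      rwa [hi (Finset.mem_coe.2 hg) (Finset.mem_coe.2 hf) hg1] at hg2
    · have : F.Nonempty := by rw [← Finset.card_pos]; omega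
      obtain ⟨f, hf⟩ := this
      refine ⟨f, hf, fun u hu => ?_⟩
      obtain ⟨g, hg, hg1, hg2⟩ := key u hu
      exact absurd ⟨g, hg, hg1⟩ hex

theorem Over.or {V : Finset ℕ} {E : Finset (Sym2 ℕ)} {F : Finset (Finset ℕ)}
    {E' : Finset (Sym2 ℕ)} (h : Stacked V E F) (o : Over V E F E') (u v : ℕ)
    (huv : s(u, v) ∈ E') : u ∈ V ∨ v ∈ V := by
  by_cases hu : u ∈ V
  · exact Or.inl hu
  · obtain ⟨f, hf, h1⟩ := o.new u hu
    exact Or.inr ((stacked_basic h).2.2.1 f hf |>.2.1 (h1 v huv))

/-- The old vertices of a path form a path of the old polytope. -/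
theorem Over.path {V : Finset ℕ} {E : Finset (Sym2 ℕ)} {F : Finset (Finset ℕ)}
    {E' : Finset (Sym2 ℕ)} {V' : Finset ℕ} (h : Stacked V E F) (o : Over V E F E') {l : List ℕ}
    (hl : EdgePath V' E' l) : EdgePath V E (l.filter fun v => v ∈ V) ∧
      l.length ≤ 2 * (l.filter fun v => v ∈ V).length + 1 := by
  obtain ⟨f1, f2⟩ := filter_chain (fun v => v ∈ V) (fun u v => s(u, v) ∈ E')
    (fun u v => s(u, v) ∈ E) (o.or h) (fun u v hu hv => o.old u v hu hv)
    (by
      intro u w v hu hw hv huv h1 h2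
      obtain ⟨f, hf, h3⟩ := o.new w hw
      exact ((stacked_basic h).2.2.1 f hf).2.2 u (h3 u (by rwa [Sym2.eq_swap])) v (h3 v h2) huv)
    l hl.1 hl.2.2
  refine ⟨⟨hl.1.filter _, fun v hv => ?_, f1⟩, f2⟩
  have := (List.mem_filter.1 hv).2
  simpa using this

/-- Alternating chains: if more than half of the elements are new, each old element has two
distinct new neighbours. -/
theorem alt {A : Type*} (P : A → Prop) [DecidablePred P] (r : A → A → Prop)
    (h1 : ∀ u v, r u v → P u ∨ P v) (l : List A) (hn : l.Nodup) (hl : l.IsChain r)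
    (hlen : l.length = 2 * (l.filter P).length + 1) :
    ∀ v ∈ l, P v → ∃ w ∈ l, ∃ w' ∈ l, w ≠ w' ∧ ¬ P w ∧ ¬ P w' ∧ r w v ∧ r v w' := by
  have head : ∀ l : List A, l.IsChain r → l.length ≤ 2 * (l.filter P).length + 1 ∧
      ∀ v l', l = v :: l' → P v → l.length ≤ 2 * (l.filter P).length := by
    intro l
    induction l with
    | nil => intro _; simp
    | cons v l ih =>
      intro hc
      match l, hc, ih with
      | [], _, _ => by_cases hv : P v <;> simp [hv]
      | w :: l', hc, ih =>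
        rw [List.isChain_cons_cons] at hc
        obtain ⟨i1, i2⟩ := ih hc.2
        by_cases hv : P v
        · have e1 : (v :: w :: l').filter P = v :: (w :: l').filter P := by simp [hv]
          rw [e1]
          simp only [List.length_cons] at i1 ⊢
          exact ⟨by omega, fun _ _ _ _ => by omega⟩
        · have hw : P w := (h1 v w hc.1).resolve_left hv
          have i3 := i2 w l' rfl hw
          have e1 : (v :: w :: l').filter P = (w :: l').filter P := by simp [hv]
          rw [e1]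
          simp only [List.length_cons] at i3 ⊢
          refine ⟨by omega, fun v' l'' h h' => ?_⟩
          rw [← (List.cons.inj h).1] at h'
          exact absurd h' hv
  have main : ∀ (n : ℕ) (l : List A), l.length ≤ n → l.Nodup → l.IsChain r →
      l.length = 2 * (l.filter P).length + 1 →
      ∀ v ∈ l, P v → ∃ w ∈ l, ∃ w' ∈ l, w ≠ w' ∧ ¬ P w ∧ ¬ P w' ∧ r w v ∧ r v w' := by
    intro n
    induction n with
    | zero =>
      intro l hl _ _ hlen
      omega
    | succ n ih =>
      intro l hl hn hc hlen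
      match l, hl, hn, hc, hlen with
      | [], _, _, _, hlen => simp at hlen
      | [v], _, _, _, hlen =>
        intro u hu hPu
        simp only [List.mem_singleton] at hu
        subst hu
        simp [hPu] at hlen
      | [v, w], _, _, _, hlen =>
        simp only [List.length_cons, List.length_nil] at hlen
        omega
      | v :: w :: w' :: l', hl, hn, hc, hlen =>
        have hv : ¬ P v := by
          intro hv
          have := (head _ hc).2 v _ rfl hv
          omega
        have hc' := hc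
        rw [List.isChain_cons_cons, List.isChain_cons_cons] at hc'
        have hw : P w := (h1 v w hc'.1).resolve_left hv
        have e1 : (v :: w :: w' :: l').filter P = w :: (w' :: l').filter P := by simp [hv, hw]
        rw [e1] at hlen
        simp only [List.length_cons] at hlen hl
        have hlen' : (w' :: l').length = 2 * ((w' :: l').filter P).length + 1 := by
          simp only [List.length_cons]
          omega
        have hn' := (List.nodup_cons.1 (List.nodup_cons.1 hn).2).2
        have hw' : ¬ P w' := by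
          intro hw'
          have := (head _ hc'.2.2).2 w' _ rfl hw'
          omega
        have hvw' : v ≠ w' := by
          rintro rfl
          exact (List.nodup_cons.1 hn).1 (by simp)
        have i := ih (w' :: l') (by simp only [List.length_cons]; omega) hn' hc'.2.2 hlen'
        intro u hu hPu
        rcases List.mem_cons.1 hu with rfl | hu
        · exact absurd hPu hv
        · rcases List.mem_cons.1 hu with rfl | hu
          · exact ⟨v, by simp, w', by simp, hvw', hv, hw', hc'.1, hc'.2.1⟩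
          · obtain ⟨t, ht, t', ht', j⟩ := i u hu hPu
            exact ⟨t, by simp [List.mem_cons.1 ht], t', by simp [List.mem_cons.1 ht'], j⟩
  exact main l.length l le_rfl hn hl hlen

end Pool.Agent.Lib.H42M
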