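import Pool.Agent.Lib.H42M.E01

/-!
# E02: polytopes with short paths (upper bound)
-/

set_option autoImplicit false

namespace Pool.Agent.Lib.H42M

open Pool.Agent.Lib.H28P

/-- There is a stacked polytope with `nn l + 2` vertices, all paths with at most `l - 1` vertices, and
a set of `nn (l + 1) - nn l` facets such that after placing a new vertex beyond each of them all
paths have at most `l` vertices. -/
def Ex (l : ℕ) : Prop :=
  ∃ (V : Finset ℕ) (E : Finset (Sym2 ℕ)) (F F₀ : Finset (Finset ℕ)) (σ : Finset ℕ → ℕ),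
    Stacked V E F ∧ V.card = nn l + 2 ∧ F₀ ⊆ F ∧ nn l + F₀.card = nn (l + 1) ∧
    Set.InjOn σ F₀ ∧ (∀ f ∈ F₀, σ f ∉ V) ∧ (∀ p, EdgePath V E p → p.length + 1 ≤ l) ∧
    (∀ p, EdgePath (exV V F₀ σ) (exE E F₀ σ) p → p.length ≤ l)

theorem ex_base (l : ℕ) (h5 : 5 ≤ l) (h11 : l ≤ 11) : Ex l := by
  obtain ⟨V, E, F, h, hc⟩ := exists_stacked (l - 1) (by omega)
  obtain ⟨-, hcF, -, -⟩ := stacked_basic h
  have hF : F.Nonempty := by rw [← Finset.card_pos]; omega
  obtain ⟨f, hf⟩ := hF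
  obtain ⟨v, hv⟩ := Infinite.exists_notMem_finset V
  have e1 : nn l = l - 3 := nn_le_thirteen (by omega)
  have e2 : nn (l + 1) = l + 1 - 3 := nn_le_thirteen (by omega)
  have hσ : ∀ g ∈ ({f} : Finset (Finset ℕ)), (fun _ : Finset ℕ => v) g ∉ V := fun _ _ => hv
  have hi : Set.InjOn (fun _ : Finset ℕ => v) (({f} : Finset (Finset ℕ)) : Set (Finset ℕ)) := by
    simp
  refine ⟨V, E, F, {f}, fun _ => v, h, by omega, by simpa using hf, ?_, hi, hσ, ?_, ?_⟩
  · rw [Finset.card_singleton]; omega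
  · intro p hp
    have := u04_len hp
    omega
  · intro p hp
    have := u04_len hp
    rw [card_exV hσ hi, Finset.card_singleton] at this
    omega

theorem exists_fresh (V : Finset ℕ) :
    ∃ τ : Finset ℕ → ℕ, Function.Injective τ ∧ ∀ f, τ f ∉ V := by
  refine ⟨fun f => V.sup id + 1 + Encodable.encode f, ?_, ?_⟩
  · intro f g hfg
    have : Encodable.encode f = Encodable.encode g := by
      simp only at hfg
      omega
    exact Encodable.encode_injective this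
  · intro f hf
    have := Finset.le_sup (f := id) hf
    simp only [id] at this
    omega

theorem ex_step (l : ℕ) (hl : 6 ≤ l) (h : Ex l) : Ex (2 * l) ∧ Ex (2 * l + 1) := by
  classical
  obtain ⟨V, E, F, F₀, σ, hS, hV, hF₀, hc₀, hi, hσ, hp, hp'⟩ := h
  obtain ⟨-, hcF, hface, hedge⟩ := stacked_basic hS
  -- the polytope `X`
  have hX := Stacked.ext hS F₀ hF₀ σ hσ hi
  have oX := over_ex hS F₀ hF₀ σ hσ hi
  have hcX := card_exV hσ hi
  obtain ⟨-, hcFX, hfaceX, hedgeX⟩ := stacked_basic hX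
  set VX := exV V F₀ σ with hVX
  set EX := exE E F₀ σ with hEX
  set FX := exF F F₀ σ with hFX
  have hVVX : V ⊆ VX := by rw [hVX, exV]; exact Finset.subset_union_left
  obtain ⟨τ, hτ, hτX⟩ := exists_fresh VX
  have hτi : ∀ A : Finset (Finset ℕ), Set.InjOn τ A := fun A => hτ.injOn
  -- the facets
  have hne : ∀ f ∈ F₀, ∃ u, u ∈ f := by
    intro f hf
    have := (hface f (hF₀ hf)).1
    exact (Finset.card_pos.1 (by omega))
  choose! χ hχ using hne
  obtain ⟨g, hg⟩ : ∃ g : Finset ℕ → Finset ℕ, ∀ f, g f = insert (σ f) (f.erase (χ f)) :=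
    ⟨_, fun _ => rfl⟩
  have hgm : ∀ f ∈ F₀, ∀ f' ∈ F₀, σ f ∈ g f' → f = f' := by
    intro f hf f' hf' h1
    rw [hg, Finset.mem_insert] at h1
    rcases h1 with h1 | h1
    · exact hi (Finset.mem_coe.2 hf) (Finset.mem_coe.2 hf') h1
    · exact absurd ((hface f' (hF₀ hf')).2.1 (Finset.mem_of_mem_erase h1)) (hσ f hf)
  have hgσ : ∀ f, σ f ∈ g f := fun f => by rw [hg]; exact Finset.mem_insert_self _ _
  have hginj : Set.InjOn g F₀ := by
    intro f hf f' hf' hff'
    exact hgm f (Finset.mem_coe.1 hf) f' (Finset.mem_coe.1 hf') (hff' ▸ hgσ f)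
  obtain ⟨B₁, hB₁⟩ : ∃ B₁, B₁ = F \ F₀ := ⟨_, rfl⟩
  obtain ⟨B₂, hB₂⟩ : ∃ B₂, B₂ = F₀.image g := ⟨_, rfl⟩
  have hB₁V : ∀ b ∈ B₁, b ⊆ V := by
    intro b hb
    rw [hB₁, Finset.mem_sdiff] at hb
    exact (hface b hb.1).2.1
  have hcB₁ : B₁.card + F₀.card = F.card := by
    rw [hB₁]
    exact Finset.card_sdiff_add_card_eq_card hF₀
  have hcB₂ : B₂.card = F₀.card := by rw [hB₂, Finset.card_image_of_injOn hginj]
  have hB₁X : B₁ ⊆ FX := by
    intro b hb
    rw [hB₁, Finset.mem_sdiff] at hb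
    exact mem_exF.2 (Or.inl hb)
  have hB₂X : B₂ ⊆ FX := by
    intro b hb
    rw [hB₂, Finset.mem_image] at hb
    obtain ⟨f, hf, rfl⟩ := hb
    exact mem_exF.2 (Or.inr ⟨f, hf, χ f, hχ f hf, (hg f).symm⟩)
  have hd : Disjoint B₁ B₂ := by
    rw [Finset.disjoint_left]
    intro b hb hb'
    rw [hB₂, Finset.mem_image] at hb'
    obtain ⟨f, hf, rfl⟩ := hb'
    exact hσ f hf (hB₁V _ hb (hgσ f))
  -- the polytope `Y` with `nn (2 l) + 2` vertices
  have hY := Stacked.ext hX B₁ hB₁X τ (fun f _ => hτX f) (hτi _)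
  have hcY := card_exV (fun f _ => hτX f) (hτi B₁)
  -- the polytope `Z` with `nn (2 l + 1) + 2` vertices
  have hZX : B₁ ∪ B₂ ⊆ FX := Finset.union_subset hB₁X hB₂X
  have hZ := Stacked.ext hX (B₁ ∪ B₂) hZX τ (fun f _ => hτX f) (hτi _)
  have hcZ := card_exV (fun f _ => hτX f) (hτi (B₁ ∪ B₂))
  have oZ := over_ex hX (B₁ ∪ B₂) hZX τ (fun f _ => hτX f) (hτi _)
  -- paths in `Y`
  have pY : ∀ p, EdgePath (exV VX B₁ τ) (exE EX B₁ τ) p → p.length + 1 ≤ 2 * l := by
    intro p hpp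
    obtain ⟨ρ, hρ⟩ : ∃ ρ : Finset ℕ → ℕ, ∀ f, ρ f = if f ∈ F₀ then σ f else τ f :=
      ⟨_, fun _ => rfl⟩
    have hρ1 : ∀ f ∈ F₀, ρ f = σ f := fun f hf => by rw [hρ, if_pos hf]
    have hρ2 : ∀ f ∈ B₁, ρ f = τ f := fun f hf => by
      rw [hρ, if_neg]
      rw [hB₁, Finset.mem_sdiff] at hf
      exact hf.2
    have hρV : ∀ f ∈ F, ρ f ∉ V := by
      intro f hf
      by_cases h1 : f ∈ F₀
      · rw [hρ1 f h1]; exact hσ f h1
      · rw [hρ, if_neg h1]
        exact fun h2 => hτX f (hVVX h2)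
    have hστ : ∀ f ∈ F₀, ∀ f', σ f ≠ τ f' := by
      intro f hf f' h1
      exact hτX f' (mem_exV.2 (Or.inr ⟨f, hf, h1⟩))
    have hρi : Set.InjOn ρ F := by
      intro f hf f' hf' h1
      simp only [hρ] at h1
      split_ifs at h1 with h2 h3 h3
      · exact hi (Finset.mem_coe.2 h2) (Finset.mem_coe.2 h3) h1
      · exact absurd h1 (hστ f h2 f')
      · exact absurd h1.symm (hστ f' h3 f)
      · exact hτ h1
    have oY := over_ex hS F subset_rfl ρ hρV hρi
    have hsub : ∀ e, e ∈ exE EX B₁ τ → e ∈ exE E F ρ := by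
      intro e he
      rcases mem_exE.1 he with h1 | ⟨f, hf, u, hu, rfl⟩
      · rcases mem_exE.1 h1 with h2 | ⟨f, hf, u, hu, rfl⟩
        · exact mem_exE.2 (Or.inl h2)
        · exact mem_exE.2 (Or.inr ⟨f, hF₀ hf, u, hu, by rw [hρ1 f hf]⟩)
      · refine mem_exE.2 (Or.inr ⟨f, ?_, u, hu, by rw [hρ2 f hf]⟩)
        rw [hB₁, Finset.mem_sdiff] at hf
        exact hf.1
    have hpp' : EdgePath (exV VX B₁ τ) (exE E F ρ) p :=
      ⟨hpp.1, hpp.2.1, hpp.2.2.imp fun u v huv => hsub _ huv⟩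
    obtain ⟨q1, q2⟩ := oY.path hS hpp'
    have q3 := hp _ q1
    omega
  -- paths in `Z`
  have pZ : ∀ p, EdgePath (exV VX (B₁ ∪ B₂) τ) (exE EX (B₁ ∪ B₂) τ) p → p.length ≤ 2 * l := by
    intro p hpp
    obtain ⟨q1, q2⟩ := oZ.path hX hpp
    have q3 := hp' _ q1
    by_contra hcon
    have q4 : (p.filter fun v => v ∈ VX).length = l := by omega
    have q5 : p.length = 2 * (p.filter fun v => v ∈ VX).length + 1 := by omega
    have q6 := alt (fun v => v ∈ VX) (fun u v => s(u, v) ∈ exE EX (B₁ ∪ B₂) τ) (oZ.or hX) p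
      hpp.1 hpp.2.2 q5
    by_cases hall : ∀ v ∈ p, v ∈ VX → v ∈ V
    · have q7 : EdgePath V E (p.filter fun v => v ∈ VX) := by
        have q8 : ∀ v ∈ p.filter fun v => v ∈ VX, v ∈ V := by
          intro v hv
          have h1 := List.mem_filter.1 hv
          exact hall v h1.1 (by simpa using h1.2)
        refine ⟨q1.1, q8, ?_⟩
        have q9 := q1.2.2
        rw [List.isChain_iff_getElem] at q9 ⊢
        intro i hi'
        exact oX.old _ _ (q8 _ (List.getElem_mem _)) (q8 _ (List.getElem_mem _)) (q9 i hi')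
      have := hp _ q7
      omega
    · push Not at hall
      obtain ⟨v, hv, hvX, hvV⟩ := hall
      obtain ⟨w, hw, w', hw', hne, hwX, hwX', h1, h2⟩ := q6 v hv hvX
      obtain ⟨f, hf, rfl⟩ : ∃ f ∈ F₀, σ f = v := by
        rcases mem_exV.1 hvX with h3 | h3
        · exact absurd h3 hvV
        · exact h3
      have key : ∀ w, w ∉ VX → s(w, σ f) ∈ exE EX (B₁ ∪ B₂) τ → w = τ (g f) := by
        intro w hwX h1
        rcases mem_exE.1 h1 with h3 | ⟨b, hb, u, hu, h3⟩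
        · exact absurd (hedgeX _ _ h3).1 hwX
        · rcases Sym2.eq_iff.1 h3 with ⟨h4, h5⟩ | ⟨h4, h5⟩
          · rw [h5] at hu
            rcases Finset.mem_union.1 hb with hb | hb
            · exact absurd (hB₁V b hb hu) (hσ f hf)
            · rw [hB₂, Finset.mem_image] at hb
              obtain ⟨f', hf', rfl⟩ := hb
              rw [← h4, hgm f hf f' hf' hu]
          · exact absurd (h4 ▸ hvX) (hτX b)
      exact hne ((key w hwX h1).trans (key w' hwX' (by rwa [Sym2.eq_swap])).symm)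
  have n1 : nn (2 * l) = 3 * nn l := nn_even l hl
  have n2 : nn (2 * l + 1) = 2 * nn l + nn (l + 1) := nn_odd l hl
  have n3 : nn (2 * l + 1 + 1) = 3 * nn (l + 1) := nn_even (l + 1) (by omega)
  have hcZ' : (B₁ ∪ B₂).card = B₁.card + B₂.card := Finset.card_union_of_disjoint hd
  constructor
  · refine ⟨exV VX B₁ τ, exE EX B₁ τ, exF FX B₁ τ, B₂, τ, hY, ?_, ?_, ?_, hτi _, ?_, pY, ?_⟩
    · omega
    · intro b hb
      exact mem_exF.2 (Or.inl ⟨hB₂X hb, fun h1 => Finset.disjoint_left.1 hd h1 hb⟩)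
    · omega
    · intro b hb h1
      rcases mem_exV.1 h1 with h2 | ⟨b', hb', h2⟩
      · exact hτX b h2
      · exact Finset.disjoint_left.1 hd hb' (hτ h2 ▸ hb)
    · rw [exV_exV, exE_exE]
      exact pZ
  · obtain ⟨B₃, hB₃⟩ : ∃ B₃, B₃ = FX \ (B₁ ∪ B₂) := ⟨_, rfl⟩
    have hcB₃ : B₃.card + (B₁ ∪ B₂).card = FX.card := by
      rw [hB₃]
      exact Finset.card_sdiff_add_card_eq_card hZX
    have hun : B₁ ∪ B₂ ∪ B₃ = FX := by
      rw [hB₃]
      exact Finset.union_sdiff_of_subset hZX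
    refine ⟨exV VX (B₁ ∪ B₂) τ, exE EX (B₁ ∪ B₂) τ, exF FX (B₁ ∪ B₂) τ, B₃, τ, hZ, ?_, ?_, ?_,
      hτi _, ?_, ?_, ?_⟩
    · omega
    · intro b hb
      rw [hB₃, Finset.mem_sdiff] at hb
      exact mem_exF.2 (Or.inl hb)
    · omega
    · intro b hb h1
      rw [hB₃, Finset.mem_sdiff] at hb
      rcases mem_exV.1 h1 with h2 | ⟨b', hb', h2⟩
      · exact hτX b h2
      · exact hb.2 (hτ h2 ▸ hb')
    · intro p hpp
      have := pZ p hpp
      omega
    · rw [exV_exV, exE_exE, hun]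
      intro p hpp
      have oT := over_ex hX FX subset_rfl τ (fun f _ => hτX f) (hτi _)
      obtain ⟨q1, q2⟩ := oT.path hX hpp
      have q3 := hp' _ q1
      omega

theorem ex_all (l : ℕ) : 5 ≤ l → Ex l := by
  induction l using Nat.strong_induction_on with
  | _ l ih =>
    intro hl
    by_cases h11 : l ≤ 11
    · exact ex_base l hl h11
    · obtain ⟨s1, s2⟩ := ex_step (l / 2) (by omega) (ih (l / 2) (by omega) (by omega))
      rcases Nat.even_or_odd' l with ⟨k, hk | hk⟩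
      · have : 2 * (l / 2) = l := by omega
        rwa [this] at s1
      · have : 2 * (l / 2) + 1 = l := by omega
        rwa [this] at s2

theorem ub_nn (l : ℕ) (hl : 5 ≤ l) : UB (nn l + 2) (l - 1) := by
  obtain ⟨V, E, F, F₀, σ, hS, hV, -, -, -, -, hp, -⟩ := ex_all l hl
  refine ⟨V, E, F, hS, hV, fun p hpp => ?_⟩
  have := hp p hpp
  omega

end Pool.Agent.Lib.H42M
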